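import Pool.Agent.R386.RP.Main2

/-!
# Complex conjugations in the absolute Galois group of `ℚ`
-/

set_option autoImplicit false
set_option linter.unusedSectionVars false

namespace Pool.Agent.R386.RP

open Finset NumberField

/-- The absolute Galois group of the field `k`. -/
abbrev AbsGal (k : Type) [Field k] : Type := Gal(AlgebraicClosure k/k)

/-- The subfields of an algebraic closure of `k` containing `k`. -/
abbrev SubField (k : Type) [Field k] : Type := IntermediateField k (AlgebraicClosure k)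

/-- `c` is a complex conjugation: for some embedding `ι` of the algebraic closure of `ℚ` into `ℂ`,
`ι (c z)` is the complex conjugate of `ι z` for all `z`. -/
def IsComplexConj (c : AbsGal ℚ) : Prop :=
  ∃ ι : AlgebraicClosure ℚ →+* ℂ, ∀ z, ι (c z) = (starRingEnd ℂ) (ι z)

section

variable {c g : AbsGal ℚ}

lemma isCC_conj (hc : IsComplexConj c) (g : AbsGal ℚ) : IsComplexConj (g * c * g⁻¹) := by
  obtain ⟨ι, hι⟩ := hc
  refine ⟨ι.comp ((g⁻¹ : AbsGal ℚ) : AlgebraicClosure ℚ →+* AlgebraicClosure ℚ), fun z => ?_⟩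
  change ι (g⁻¹ ((g * c * g⁻¹) z)) = (starRingEnd ℂ) (ι (g⁻¹ z))
  rw [← hι]
  congr 1
  have h1 : (g⁻¹ * (g * c * g⁻¹)) z = (c * g⁻¹) z := by
    congr 1
    group
  exact h1

lemma isCC_sq (hc : IsComplexConj c) : c * c = 1 := by
  obtain ⟨ι, hι⟩ := hc
  ext z
  apply ι.injective
  change ι (c (c z)) = ι z
  rw [hι, hι, Complex.conj_conj]

/-- monotonicity on the real elements -/
lemma real_mono {ι : AlgebraicClosure ℚ →+* ℂ} (hι : ∀ z, ι (c z) = (starRingEnd ℂ) (ι z))
    (hg : g * c = c * g) {z : AlgebraicClosure ℚ} (hz : c z = z) (hpos : 0 ≤ (ι z).re) :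
    0 ≤ (ι (g z)).re := by
  obtain ⟨a, ha⟩ := IsAlgClosed.exists_pow_nat_eq z two_pos
  have him : (ι z).im = 0 := by
    have h1 := hι z
    rw [hz] at h1
    exact Complex.conj_eq_iff_im.1 h1.symm
  have h2 : (ι a) ^ 2 = ι z := by rw [← map_pow, ha]
  -- `ι a` is real
  have h3 : (ι a).im = 0 := by
    have h4 := congrArg Complex.im h2
    have h5 := congrArg Complex.re h2
    rw [him, pow_two, Complex.mul_im] at h4
    rw [pow_two, Complex.mul_re] at h5
    by_contra h6
    have h7 : (ι a).re = 0 := by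
      have : (ι a).re * (ι a).im = 0 := by linarith
      exact (mul_eq_zero.1 this).resolve_right h6
    rw [h7] at h5
    have h8 : 0 < (ι a).im * (ι a).im := mul_self_pos.2 h6
    linarith
  have h4 : c a = a := by
    apply ι.injective
    rw [hι]
    exact Complex.conj_eq_iff_im.2 h3
  have h5 : c (g a) = g a := by
    have h6 : (c * g) a = (g * c) a := by rw [hg]
    change (c * g) a = g a
    rw [h6]
    change g (c a) = g a
    rw [h4]
  have h6 : (ι (g a)).im = 0 := by
    have h1 := hι (g a)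
    rw [h5] at h1
    exact Complex.conj_eq_iff_im.1 h1.symm
  have h7 : ι (g z) = (ι (g a)) ^ 2 := by rw [← ha, map_pow, map_pow]
  rw [h7, pow_two, Complex.mul_re, h6]
  nlinarith [mul_self_nonneg (ι (g a)).re]

lemma real_fixed {ι : AlgebraicClosure ℚ →+* ℂ} (hι : ∀ z, ι (c z) = (starRingEnd ℂ) (ι z))
    (hg : g * c = c * g) {z : AlgebraicClosure ℚ} (hz : c z = z) : g z = z := by
  have him : (ι z).im = 0 := by
    have h1 := hι z
    rw [hz] at h1
    exact Complex.conj_eq_iff_im.1 h1.symm
  have hgz : c (g z) = g z := by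
    have h6 : (c * g) z = (g * c) z := by rw [hg]
    change (c * g) z = g z
    rw [h6]
    change g (c z) = g z
    rw [hz]
  have him' : (ι (g z)).im = 0 := by
    have h1 := hι (g z)
    rw [hgz] at h1
    exact Complex.conj_eq_iff_im.1 h1.symm
  -- comparison with rational numbers
  have hq : ∀ q : ℚ, (q : ℝ) ≤ (ι z).re → (q : ℝ) ≤ (ι (g z)).re := by
    intro q hq
    have h1 : c (z - (q : AlgebraicClosure ℚ)) = z - (q : AlgebraicClosure ℚ) := by
      rw [map_sub, hz, map_ratCast]
    have h2 : ι (z - (q : AlgebraicClosure ℚ)) = ι z - (q : ℂ) := by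
      rw [map_sub, map_ratCast]
    have h3 := real_mono hι hg h1 (by rw [h2]; simpa using hq)
    have h4 : ι (g (z - (q : AlgebraicClosure ℚ))) = ι (g z) - (q : ℂ) := by
      rw [map_sub, map_ratCast, map_sub, map_ratCast]
    rw [h4] at h3
    simpa using h3
  have hq' : ∀ q : ℚ, (ι z).re ≤ (q : ℝ) → (ι (g z)).re ≤ (q : ℝ) := by
    intro q hq
    have h1 : c ((q : AlgebraicClosure ℚ) - z) = (q : AlgebraicClosure ℚ) - z := by
      rw [map_sub, hz, map_ratCast]
    have h2 : ι ((q : AlgebraicClosure ℚ) - z) = (q : ℂ) - ι z := by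
      rw [map_sub, map_ratCast]
    have h3 := real_mono hι hg h1 (by rw [h2]; simpa using hq)
    have h4 : ι (g ((q : AlgebraicClosure ℚ) - z)) = (q : ℂ) - ι (g z) := by
      rw [map_sub, map_ratCast, map_sub, map_ratCast]
    rw [h4] at h3
    simpa using h3
  have hre : (ι (g z)).re = (ι z).re := by
    refine le_antisymm (le_of_forall_gt fun x hx => ?_) (le_of_forall_lt fun x hx => ?_)
    · obtain ⟨q, h1, h2⟩ := exists_rat_btwn hx
      exact (hq' q h1.le).trans_lt h2
    · obtain ⟨q, h1, h2⟩ := exists_rat_btwn hx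
      exact h1.trans_le (hq q h2.le)
  apply ι.injective
  exact Complex.ext hre (by rw [him, him'])

lemma isCC_cent (hc : IsComplexConj c) (hg : g * c = c * g) : g = 1 ∨ g = c := by
  obtain ⟨ι, hι⟩ := hc
  obtain ⟨j, hj⟩ := IsAlgClosed.exists_pow_nat_eq (-1 : AlgebraicClosure ℚ) two_pos
  have hj0 : j ≠ 0 := by
    rintro rfl
    norm_num at hj
  have hcj : c j = - j := by
    have h1 : (ι j) ^ 2 = -1 := by rw [← map_pow, hj, map_neg, map_one]
    have h2 : ι j = Complex.I ∨ ι j = - Complex.I := by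
      have h3 : (ι j - Complex.I) * (ι j + Complex.I) = 0 := by
        have : (ι j - Complex.I) * (ι j + Complex.I) = (ι j) ^ 2 - Complex.I ^ 2 := by ring
        rw [this, h1, Complex.I_sq, sub_self]
      rcases mul_eq_zero.1 h3 with h4 | h4
      · exact Or.inl (sub_eq_zero.1 h4)
      · exact Or.inr (eq_neg_of_add_eq_zero_left h4)
    apply ι.injective
    rw [hι, map_neg]
    rcases h2 with h3 | h3 <;> rw [h3] <;> simp
  have hcc : ∀ z, c (c z) = z := fun z => by
    have := isCC_sq ⟨ι, hι⟩
    exact congrArg (fun σ : AbsGal ℚ => σ z) this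
  have hgj : g j = j ∨ g j = - j := by
    have h1 : (g j) ^ 2 = j ^ 2 := by rw [← map_pow, hj, map_neg, map_one]
    exact sq_eq_sq_iff_eq_or_eq_neg.1 h1
  have hdec : ∀ z : AlgebraicClosure ℚ, g z = (z + c z) / 2 + (z - c z) / (2 * j) * g j := by
    intro z
    have h1 : c ((z + c z) / 2) = (z + c z) / 2 := by
      rw [map_div₀, map_add, hcc, map_ofNat, add_comm]
    have h2 : c ((z - c z) / (2 * j)) = (z - c z) / (2 * j) := by
      rw [map_div₀, map_sub, hcc, map_mul, map_ofNat, hcj, mul_neg, div_neg, ← neg_div, neg_sub]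
    have h3 : z = (z + c z) / 2 + (z - c z) / (2 * j) * j := by
      field_simp
      ring
    conv_lhs => rw [h3]
    rw [map_add, map_mul, real_fixed hι hg h1, real_fixed hι hg h2]
  rcases hgj with h | h
  · left
    ext z
    rw [hdec z, h]
    change _ = z
    field_simp
    ring
  · right
    ext z
    rw [hdec z, h]
    field_simp
    ring

end

/-- two embeddings differ by an automorphism -/
lemma exists_conj' {k : Type} [Field k] {A : Type} [Field A] [Algebra k A]
    (ι ι' : AlgebraicClosure k →ₐ[k] A) : ∃ g : AbsGal k, ∀ z, ι' z = ι (g z) := by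
  letI : Algebra (AlgebraicClosure k) A := ι.toRingHom.toAlgebra
  haveI : IsScalarTower k (AlgebraicClosure k) A :=
    IsScalarTower.of_algebraMap_eq fun q => (ι.commutes q).symm
  let φ := ι'.restrictNormal (AlgebraicClosure k)
  have h1 : ∀ z, ι (φ z) = ι' z := fun z => ι'.restrictNormal_commutes (AlgebraicClosure k) z
  have hbij : Function.Bijective φ := Algebra.IsAlgebraic.algHom_bijective φ
  exact ⟨AlgEquiv.ofBijective φ hbij, fun z => (h1 z).symm⟩

/-- two embeddings differ by an automorphism -/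
lemma exists_conj (ι ι' : AlgebraicClosure ℚ →+* ℂ) : ∃ g : AbsGal ℚ, ∀ z, ι' z = ι (g z) := by
  have h : ∀ κ : AlgebraicClosure ℚ →+* ℂ, ∀ q : ℚ,
      κ (algebraMap ℚ (AlgebraicClosure ℚ) q) = algebraMap ℚ ℂ q := by
    intro κ q
    exact RingHom.congr_fun (Subsingleton.elim (κ.comp (algebraMap ℚ (AlgebraicClosure ℚ)))
      (algebraMap ℚ ℂ)) q
  exact exists_conj' (k := ℚ) { ι with commutes' := h ι } { ι' with commutes' := h ι' }

/-- weak approximation: prescribed signs at the real embeddings -/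
lemma exists_sign (F : Type) [Field F] [NumberField F] (b : (F →+* ℂ) → Prop) :
    ∃ x : F, x ≠ 0 ∧ ∀ τ : F →+* ℂ, (∀ z, (starRingEnd ℂ) (τ z) = τ z) →
      ((τ x).re < 0 ↔ b τ) := by
  classical
  let s : (v : InfinitePlace F) → WithAbs v.1 := fun v => WithAbs.toAbs v.1 (if b v.embedding then -1 else 1)
  obtain ⟨x, hx⟩ := (InfinitePlace.denseRange_algebraMap_pi F).exists_dist_lt s one_pos
  have hx' : ∀ v : InfinitePlace F, ‖v.embedding (x - if b v.embedding then -1 else 1)‖ < 1 := by
    intro v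
    have h1 : dist (s v) (algebraMap F ((v : InfinitePlace F) → WithAbs v.1) x v) < 1 :=
      (dist_le_pi_dist _ _ v).trans_lt hx
    rw [dist_comm, dist_eq_norm] at h1
    rw [InfinitePlace.norm_embedding_eq]
    exact h1
  have key : ∀ τ : F →+* ℂ, (∀ z, (starRingEnd ℂ) (τ z) = τ z) → ‖τ x - (if b τ then -1 else 1)‖ < 1 := by
    intro τ hτ
    have h1 : (InfinitePlace.mk τ).embedding = τ :=
      InfinitePlace.embedding_mk_eq_of_isReal (by
        rw [ComplexEmbedding.isReal_iff]
        ext z
        exact hτ z)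
    have h2 := hx' (InfinitePlace.mk τ)
    rw [h1] at h2
    rw [map_sub] at h2
    convert h2 using 3
    split_ifs <;> simp
  have key2 : ∀ τ : F →+* ℂ, (∀ z, (starRingEnd ℂ) (τ z) = τ z) → ((τ x).re < 0 ↔ b τ) := by
    intro τ hτ
    have h1 := key τ hτ
    have h2 := (Complex.abs_re_le_norm _).trans_lt h1
    by_cases hb : b τ
    · rw [if_pos hb] at h2
      rw [abs_lt] at h2
      simp at h2
      exact ⟨fun _ => hb, fun _ => by linarith [h2.2]⟩
    · rw [if_neg hb] at h2
      rw [abs_lt] at h2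
      simp at h2
      exact ⟨fun h => absurd h (by linarith [h2.1]), fun h => absurd h hb⟩
  -- nonzero
  by_cases hx0 : x = 0
  · refine ⟨1, one_ne_zero, fun τ hτ => ?_⟩
    have h1 := key τ hτ
    rw [hx0, map_zero] at h1
    exfalso
    split_ifs at h1 <;> simp at h1
  · exact ⟨x, hx0, key2⟩

end Pool.Agent.R386.RP
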