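import Pool.Agent.R386.RP.Field

/-!
# The absolute Galois group of `ℚ` with its complex conjugations
-/

set_option autoImplicit false
set_option linter.unusedSectionVars false

namespace Pool.Agent.R386.RP

open Finset NumberField

/-- an open subgroup is the group of a number field -/
theorem exists_nf {k : Type} [Field k] [CharZero k] {N : Subgroup (AbsGal k)}
    (hN : IsOpen (N : Set (AbsGal k))) :
    FiniteDimensional k (IntermediateField.fixedField N : SubField k) ∧
      (IntermediateField.fixedField N : SubField k).fixingSubgroup = N := by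
  have hcl : IsClosed (N : Set (AbsGal k)) := Subgroup.isClosed_of_isOpen _ hN
  let S : ClosedSubgroup (AbsGal k) := ⟨N, hcl⟩
  have h1 : (IntermediateField.fixedField N).fixingSubgroup = N :=
    InfiniteGalois.fixingSubgroup_fixedField S
  refine ⟨?_, h1⟩
  rw [← InfiniteGalois.isOpen_iff_finite, h1]
  exact hN

theorem isOpen_of_nf {k : Type} [Field k] [CharZero k] (F : SubField k) [FiniteDimensional k F] :
    IsOpen (F.fixingSubgroup : Set (AbsGal k)) :=
  (InfiniteGalois.isOpen_iff_finite F).2 inferInstance

theorem fixedField_fixing {k : Type} [Field k] [CharZero k] (F : SubField k) :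
    IntermediateField.fixedField F.fixingSubgroup = F :=
  InfiniteGalois.fixedField_fixingSubgroup F

theorem nf_inst (F : SubField ℚ) (h : FiniteDimensional ℚ F) : NumberField F := by
  refine { to_charZero := inferInstance, to_finiteDimensional := ?_ }
  have h2 : ∀ (m1 m2 : Module ℚ F), @Module.Finite ℚ F _ _ m1 → @Module.Finite ℚ F _ _ m2 := by
    intro m1 m2 h3
    have h4 : m1 = m2 := Subsingleton.elim _ _
    rwa [h4] at h3
  exact h2 _ _ h

lemma isOpen_adjoin {k : Type} [Field k] [CharZero k] (y : AlgebraicClosure k) :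
    ∃ U : Subgroup (AbsGal k), IsOpen (U : Set (AbsGal k)) ∧ ∀ g ∈ U, g y = y := by
  haveI : FiniteDimensional k (IntermediateField.adjoin k {y} : SubField k) :=
    IntermediateField.adjoin.finiteDimensional (Algebra.IsIntegral.isIntegral y)
  refine ⟨_, isOpen_of_nf (IntermediateField.adjoin k {y}), fun g hg => ?_⟩
  exact (IntermediateField.mem_fixingSubgroup_iff _ _).1 hg y (IntermediateField.mem_adjoin_simple_self k y)

/-- the linear character attached to a square root -/
noncomputable def sqc {G : Type} [Group G] {A : Type} [Field A] [CharZero A] [MulSemiringAction G A]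
    {N : Subgroup G} {y : A} (hy : y ≠ 0) (h : ∀ n ∈ N, n • y = y ∨ n • y = - y) : N →* ℂˣ :=
  open Classical in
  { toFun := fun n => if (n : G) • y = y then 1 else -1
    map_one' := by simp
    map_mul' := by
      intro a b
      have hne : - y ≠ y := fun h1 => hy (by
        have : (2 : A) * y = 0 := by linear_combination -h1
        exact (mul_eq_zero.1 this).resolve_left two_ne_zero)
      rcases h a a.2 with h1 | h1 <;> rcases h b b.2 with h2 | h2
      · have h3 : ((a * b : N) : G) • y = y := by
          rw [Subgroup.coe_mul, mul_smul, h2, h1]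
        rw [if_pos h1, if_pos h2, if_pos h3, one_mul]
      · have h3 : ((a * b : N) : G) • y = - y := by
          rw [Subgroup.coe_mul, mul_smul, h2, smul_neg, h1]
        have n2 : ¬ ((b : G) • y = y) := by rw [h2]; exact hne
        have n3 : ¬ (((a * b : N) : G) • y = y) := by rw [h3]; exact hne
        rw [if_neg n3, if_pos h1, if_neg n2, one_mul]
      · have h3 : ((a * b : N) : G) • y = - y := by
          rw [Subgroup.coe_mul, mul_smul, h2, h1]
        have n1 : ¬ ((a : G) • y = y) := by rw [h1]; exact hne
        have n3 : ¬ (((a * b : N) : G) • y = y) := by rw [h3]; exact hne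
        rw [if_neg n3, if_pos h2, if_neg n1, mul_one]
      · have h3 : ((a * b : N) : G) • y = y := by
          rw [Subgroup.coe_mul, mul_smul, h2, smul_neg, h1, neg_neg]
        have n1 : ¬ ((a : G) • y = y) := by rw [h1]; exact hne
        have n2 : ¬ ((b : G) • y = y) := by rw [h2]; exact hne
        rw [if_pos h3, if_neg n1, if_neg n2, neg_mul_neg, mul_one] }

lemma sqc_apply {G : Type} [Group G] {A : Type} [Field A] [CharZero A] [MulSemiringAction G A]
    {N : Subgroup G} {y : A} (hy : y ≠ 0) (h : ∀ n ∈ N, n • y = y ∨ n • y = - y) (n : N) :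
    sqc hy h n = open Classical in if (n : G) • y = y then 1 else -1 := rfl

theorem wa_rat (N : Subgroup (AbsGal ℚ)) (hN : IsOpen (N : Set (AbsGal ℚ))) (T : Set (AbsGal ℚ))
    (hT : ∀ c ∈ T, ∀ n ∈ N, n * c * n⁻¹ ∈ T) :
    ∃ ε : N →* ℂˣ, Opn ε ∧ (∀ n, ε n = 1 ∨ ε n = -1) ∧
      ∀ c, IsComplexConj c → ∀ h : c ∈ N, (ε ⟨c, h⟩ = -1 ↔ c ∈ T) := by
  classical
  obtain ⟨hfin, hFN⟩ := exists_nf hN
  set F : SubField ℚ := IntermediateField.fixedField N with hF
  haveI := nf_inst F hfin
  obtain ⟨x, hx0, hx⟩ := exists_sign F (fun τ => ∃ c ∈ T, ∃ ι : AlgebraicClosure ℚ →+* ℂ,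
    (∀ z, ι (c z) = (starRingEnd ℂ) (ι z)) ∧ ∀ z : F, ι z = τ z)
  obtain ⟨y, hy⟩ := IsAlgClosed.exists_pow_nat_eq (x : AlgebraicClosure ℚ) two_pos
  have hy0 : y ≠ 0 := by
    rintro rfl
    apply hx0
    have h1 : (x : AlgebraicClosure ℚ) = 0 := by rw [← hy]; simp
    exact_mod_cast h1
  have hfix : ∀ n ∈ N, ∀ z : F, n (z : AlgebraicClosure ℚ) = z := by
    intro n hn z
    exact (IntermediateField.mem_fixedField_iff _ _).1 z.2 n hn
  have hpm : ∀ n ∈ N, n • y = y ∨ n • y = - y := by
    intro n hn
    have h1 : (n y) ^ 2 = y ^ 2 := by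
      rw [← map_pow, hy]
      exact hfix n hn x
    exact sq_eq_sq_iff_eq_or_eq_neg.1 h1
  refine ⟨sqc hy0 hpm, ?_, ?_, ?_⟩
  · obtain ⟨U, hU, h⟩ := isOpen_adjoin y
    refine ⟨U, hU, fun n hn => ?_⟩
    have h2 : (n : AbsGal ℚ) • y = y := h _ hn
    rw [sqc_apply, if_pos h2]
  · intro n
    rw [sqc_apply]
    split_ifs
    · exact Or.inl rfl
    · exact Or.inr rfl
  · intro c hc hcN
    obtain ⟨ι, hι⟩ := hc
    let τ : F →+* ℂ := ι.comp (algebraMap F (AlgebraicClosure ℚ))
    have hτ : ∀ z, (starRingEnd ℂ) (τ z) = τ z := by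
      intro z
      change (starRingEnd ℂ) (ι z) = ι z
      rw [← hι, hfix c hcN z]
    have hsq : (ι y) ^ 2 = τ x := by
      change _ = ι x
      rw [← hy, map_pow]
    have hiff : c y = y ↔ ¬ ((τ x).re < 0) := by
      have h2 := congrArg Complex.re hsq
      rw [pow_two, Complex.mul_re] at h2
      constructor
      · intro h1
        have h3 : (ι y).im = 0 := by
          have h4 := hι y
          rw [h1] at h4
          exact Complex.conj_eq_iff_im.1 h4.symm
        rw [h3] at h2
        nlinarith [mul_self_nonneg (ι y).re]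
      · intro h1
        rcases hpm c hcN with h3 | h3
        · exact h3
        · exfalso
          have h4 := hι y
          have h5 : ι (c y) = - ι y := by
            have : c y = - y := h3
            rw [this, map_neg]
          rw [h5] at h4
          have h6 := congrArg Complex.re h4
          simp at h6
          have h7 : (ι y).re = 0 := by linarith
          rw [h7] at h2
          have h8 : (ι y).im ≠ 0 := by
            intro h9
            apply hy0
            apply ι.injective
            rw [map_zero]
            exact Complex.ext h7 h9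
          have h9 := mul_self_pos.2 h8
          apply h1
          linarith
    have h1 : (sqc hy0 hpm ⟨c, hcN⟩ = -1) ↔ ¬ (c y = y) := by
      rw [sqc_apply]
      change (if c y = y then (1 : ℂˣ) else -1) = -1 ↔ _
      split_ifs with h2
      · exact ⟨fun h3 => absurd h3 one_ne, fun h3 => absurd h2 h3⟩
      · exact ⟨fun _ => h2, fun _ => rfl⟩
    rw [h1, hiff, not_not, hx τ hτ]
    constructor
    · rintro ⟨c', hc', ι', hι', hτ'⟩
      obtain ⟨g, hg⟩ := exists_conj ι ι'
      have hgN : g ∈ N := by
        rw [← hFN, IntermediateField.mem_fixingSubgroup_iff]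
        intro z hz
        apply ι.injective
        rw [← hg]
        exact hτ' ⟨z, hz⟩
      have h2 : c = g * c' * g⁻¹ := by
        ext z
        apply ι.injective
        rw [hι]
        change _ = ι (g (c' (g⁻¹ z)))
        rw [← hg, hι', hg]
        congr 2
        exact (g.apply_symm_apply z).symm
      rw [h2]
      exact hT c' hc' g hgN
    · intro hcT
      exact ⟨c, hcT, ι, hι, fun z => rfl⟩

/-- the absolute Galois group of `ℚ` with its complex conjugations -/
def RQ : RG (AbsGal ℚ) where
  C := {c | IsComplexConj c}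
  conj c hc g := isCC_conj hc g
  sq c hc := isCC_sq hc
  cent c hc g hg := isCC_cent hc hg
  wa N hN T hT := wa_rat N hN T hT

end Pool.Agent.R386.RP
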