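import Pool.Agent.R386.RP.Main3

/-!
# Real places: the general bound, main part
-/

set_option autoImplicit false
set_option linter.unusedSectionVars false

namespace Pool.Agent.R386.RP

open Finset

lemma zmod_two_ne : (0 : ZMod 2) ≠ 1 := by decide

lemma zmod_two_cases : ∀ z : ZMod 2, z = 0 ∨ z = 1 := by decide

variable {G : Type} [Group G] [TopologicalSpace G] [IsTopologicalGroup G] [CompactSpace G]
  {R : RG G} {X : Type} [CommGroup X] (I : Inv G X) {E : ℕ} (hE : Even E)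
  (hyp : ∀ F : Subgroup G, IsOpen (F : Set G) → R.Av F → ∀ ψ : F →* ℂˣ, Opn ψ → ψ ^ E = 1 →
    I.u F (ex ψ) = 1)

include hE hyp

/-- the step at the prime two -/
lemma stepD {K : Subgroup G} (hK : IsOpen (K : Set G)) {χ e : K →* ℂˣ} (hχ : Opn χ)
    (hχp : χ ^ 2 = 1) (x0 : K) (hx0 : χ x0 ≠ 1) (heven : R.Even χ) (he : Opn e)
    (he2 : ∀ k, e k = 1 ∨ e k = -1) (c0 : G) (hc0 : c0 ∈ R.C) (hc0K : c0 ∈ K) (hec0 : e ⟨c0, hc0K⟩ = -1) :
    ∃ (N : Subgroup G) (hNK : N ≤ K) (θ : N →* ℂˣ),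
      IsOpen (N : Set G) ∧ N = kerG χ ∧ Opn θ ∧ (∀ n, θ n = 1 ∨ θ n = -1) ∧
      ∀ ψ : K →* ℂˣ, Opn ψ → ψ ^ E = 1 →
        I.u N (ex (rs N hNK ψ * θ)) = I.u K (ex ψ) * I.u K (ex (ψ * e)) := by
  classical
  haveI : Fact (Nat.Prime 2) := ⟨Nat.prime_two⟩
  obtain ⟨ν, r, hν, hν0, hr⟩ := exists_nu χ hχp x0 hx0
  have hNopen : IsOpen ((kerG χ : Subgroup G) : Set G) := isOpen_kerG hK hχ
  have hmem : ∀ g, g ∈ kerG χ ↔ ∃ h : g ∈ K, ν ⟨g, h⟩ = 0 := by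
    intro g
    rw [mem_kerG]
    exact exists_congr fun h => (hν0 _).symm
  obtain ⟨T0, hT0, hT1⟩ := exists_T (R := R) ν r hν hr (kerG χ) hmem
    (fun c hc h => (hν0 _).2 (heven c hc h))
  -- the part over `e = -1`
  let T : Set G := {c | c ∈ T0 ∧ ∃ h : c ∈ K, e ⟨c, h⟩ = -1}
  have hT : ∀ c ∈ T, ∀ n ∈ kerG χ, n * c * n⁻¹ ∈ T := by
    rintro c ⟨h1, h2, h3⟩ n hn
    have hnK : n ∈ K := (kerG_le χ) hn
    refine ⟨hT0 c h1 n hn, K.mul_mem (K.mul_mem hnK h2) (K.inv_mem hnK), ?_⟩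
    rw [conj_val e h2 hnK, h3]
  obtain ⟨ε, hε, hε2, hεT⟩ := R.wa (kerG χ) hNopen T hT
  let e' : K → ℤˣ := fun k => if h : (k : G) ∈ kerG χ then (if ε ⟨k, h⟩ = 1 then 1 else -1) else 1
  have he1 : ∀ (k : K) (h : (k : G) ∈ kerG χ), e' k = if ε ⟨k, h⟩ = 1 then 1 else -1 := by
    intro k h
    simp only [e', dif_pos h]
  have hin : ∀ a : K, ν a = 0 → (a : G) ∈ kerG χ := fun a ha => (hmem _).2 ⟨a.2, ha⟩
  have he' : ∀ a b, ν a = 0 → ν b = 0 → e' (a * b) = e' a * e' b := by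
    intro a b ha hb
    have hab : ((a * b : K) : G) ∈ kerG χ := (kerG χ).mul_mem (hin a ha) (hin b hb)
    rw [he1 _ hab, he1 _ (hin a ha), he1 _ (hin b hb)]
    have h1 : (⟨((a * b : K) : G), hab⟩ : kerG χ) = ⟨a, hin a ha⟩ * ⟨b, hin b hb⟩ := rfl
    rw [h1, map_mul]
    rcases hε2 ⟨a, hin a ha⟩ with h2 | h2 <;> rcases hε2 ⟨b, hin b hb⟩ with h3 | h3 <;>
      rw [h2, h3] <;> simp [one_ne.symm]
  let d : Dat K 2 := ⟨ν, r, e', hν, hr, he'⟩
  have hker : kerS d = kerG χ := by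
    ext g
    rw [hmem]
    rfl
  -- a small open subgroup
  obtain ⟨U1, hU1, h1⟩ := hχ
  obtain ⟨U2, hU2, h2⟩ := hε
  obtain ⟨V, hVn, hVo, hV⟩ := exists_normal (U := K ⊓ U1 ⊓ U2) ((hK.inter hU1).inter hU2)
  have hVN : ∀ g ∈ V, g ∈ kerG χ := fun g hg => mem_kerG.2 ⟨(hV hg).1.1, h1 ⟨g, _⟩ (hV hg).1.2⟩
  have hVe : ∀ k : K, (k : G) ∈ V → e' k = 1 := by
    intro k hk
    rw [he1 k (hVN _ hk), if_pos]
    exact h2 ⟨k, hVN _ hk⟩ (hV hk).2
  have hVE : ∀ (i : ZMod 2) (k : K), (k : G) ∈ V → d.E i k = 1 := by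
    intro i k hk
    refine hVe _ ?_
    have h3 := hVn.conj_mem (k : G) hk ((r i : G)⁻¹)
    rw [inv_inv] at h3
    exact h3
  have hVν : ∀ k : K, (k : G) ∈ V → ν k = 0 := by
    intro k hk
    obtain ⟨_, h3⟩ := (hmem _).1 (hVN _ hk)
    exact h3
  have hVt : ∀ (i : ZMod 2) (k : K), (k : G) ∈ V → d.t k i = 1 := by
    intro i k hk
    rw [d.t_eq (hVν k hk), hVE i k hk]
  -- signs at complex conjugations
  have hcc : ∀ c ∈ R.C, ∀ j, (r j : G)⁻¹ * c * (r j : G) ∈ R.C := by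
    intro c hc j
    have := R.conj c hc (r j : G)⁻¹
    rwa [inv_inv] at this
  have hcN : ∀ c ∈ R.C, c ∈ K → ∀ j, (r j : G)⁻¹ * c * (r j : G) ∈ kerG χ := by
    intro c hc h j
    refine mem_kerG.2 ⟨K.mul_mem (K.mul_mem (K.inv_mem (r j).2) h) (r j).2, ?_⟩
    exact heven _ (hcc c hc j) _
  have hEj : ∀ c ∈ R.C, ∀ h : c ∈ K, ∀ j, d.E j ⟨c, h⟩ = -1 ↔
      ((r j : G)⁻¹ * c * (r j : G) ∈ T0 ∧ e ⟨c, h⟩ = -1) := by
    intro c hc h j
    have h4 : d.E j ⟨c, h⟩ = if ε ⟨(r j : G)⁻¹ * c * (r j : G), hcN c hc h j⟩ = 1 then 1 else -1 :=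
      he1 ((r j)⁻¹ * (⟨c, h⟩ : K) * r j) (hcN c hc h j)
    have h5 : d.E j ⟨c, h⟩ = -1 ↔ (r j : G)⁻¹ * c * (r j : G) ∈ T := by
      rw [h4, ← hεT _ (hcc c hc j) (hcN c hc h j)]
      rcases hε2 ⟨(r j : G)⁻¹ * c * (r j : G), hcN c hc h j⟩ with h5 | h5
      · rw [h5]
        simp [one_ne]
      · rw [h5]
        simp [one_ne.symm]
    rw [h5]
    have hconj : ∀ hk : (r j : G)⁻¹ * c * (r j : G) ∈ K, e ⟨(r j : G)⁻¹ * c * (r j : G), hk⟩ = e ⟨c, h⟩ := by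
      intro hk
      have h3 : (⟨(r j : G)⁻¹ * c * (r j : G), hk⟩ : K) = (r j)⁻¹ * (⟨c, h⟩ : K) * r j := rfl
      rw [h3, map_mul, map_mul, map_inv, mul_comm (e (r j))⁻¹, inv_mul_cancel_right]
    constructor
    · rintro ⟨h6, h7, h8⟩
      exact ⟨h6, by rw [← hconj h7, h8]⟩
    · rintro ⟨h6, h8⟩
      have hk : (r j : G)⁻¹ * c * (r j : G) ∈ K := K.mul_mem (K.mul_mem (K.inv_mem (r j).2) h) (r j).2
      exact ⟨h6, hk, by rw [hconj hk, h8]⟩
  have hνc : ∀ c ∈ R.C, ∀ h : c ∈ K, d.ν ⟨c, h⟩ = 0 := fun c hc h => (hν0 _).2 (heven c hc h)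
  have hTc : ∀ c ∈ R.C, ∀ h : c ∈ K, d.T ⟨c, h⟩ = d.E 0 ⟨c, h⟩ * d.E 1 ⟨c, h⟩ := by
    intro c hc h
    rw [T_two, d.t_eq (hνc c hc h), d.t_eq (hνc c hc h)]
  -- if `e c = 1` all signs are one
  have hpos : ∀ c ∈ R.C, ∀ h : c ∈ K, e ⟨c, h⟩ = 1 → ∀ j, d.E j ⟨c, h⟩ = 1 := by
    intro c hc h hec j
    refine (Int.units_eq_one_or _).resolve_right fun h5 => ?_
    have h6 := ((hEj c hc h j).1 h5).2
    rw [hec] at h6
    exact one_ne h6
  have hneg : ∀ c ∈ R.C, ∀ h : c ∈ K, e ⟨c, h⟩ = -1 → d.T ⟨c, h⟩ = -1 := by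
    intro c hc h hec
    obtain ⟨i, hi, huniq⟩ := hT1 c hc h
    have h6 : ∀ j, d.E j ⟨c, h⟩ = -1 ↔ j = i := by
      intro j
      rw [hEj c hc h j]
      constructor
      · rintro ⟨h7, _⟩
        exact huniq j h7
      · rintro rfl
        exact ⟨hi, hec⟩
    rw [hTc c hc h]
    have h01 : (0 : ZMod 2) ≠ 1 := zmod_two_ne
    have hi01 : i = 0 ∨ i = 1 := zmod_two_cases i
    rcases hi01 with hi0 | hi0
    · have h7 : d.E 0 ⟨c, h⟩ = -1 := (h6 0).2 hi0.symm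
      have h8 : d.E 1 ⟨c, h⟩ = 1 := by
        refine (Int.units_eq_one_or _).resolve_right fun h9 => h01 ?_
        rw [← hi0]
        exact ((h6 1).1 h9).symm
      rw [h7, h8, mul_one]
    · have h7 : d.E 1 ⟨c, h⟩ = -1 := (h6 1).2 hi0.symm
      have h8 : d.E 0 ⟨c, h⟩ = 1 := by
        refine (Int.units_eq_one_or _).resolve_right fun h9 => h01 ?_
        rw [← hi0]
        exact (h6 0).1 h9
      rw [h7, h8, one_mul]
  have htaue : ∀ c ∈ R.C, ∀ h : c ∈ K, tau d ⟨c, h⟩ = e ⟨c, h⟩ := by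
    intro c hc h
    rcases he2 ⟨c, h⟩ with h5 | h5
    · rw [h5, tau_apply, hTc c hc h, hpos c hc h h5, hpos c hc h h5, mul_one, map_one]
    · rw [h5, tau_apply, hneg c hc h h5, sg_neg]
  have hNo : IsOpen ((kerS d : Subgroup G) : Set G) := by rw [hker]; exact hNopen
  have hellO : Opn (ell d {0}) := by
    refine ⟨V, hVo, fun n hn => ?_⟩
    change Units.map (Int.castRingHom ℂ : ℤ →* ℂ) (d.El {0} ⟨n, n.2.1⟩) = 1
    have h3 : d.El {0} ⟨n, n.2.1⟩ = 1 := prod_eq_one fun j _ => hVE j _ hn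
    rw [h3, map_one]
  have htauO : Opn (tau d) := by
    refine ⟨V, hVo, fun k hk => ?_⟩
    rw [tau_apply, T_two, hVt 0 k hk, hVt 1 k hk, mul_one, map_one]
  have hmuO : Opn (muF d) := by
    refine ⟨V, hVo, fun k hk => ?_⟩
    change sg (d.t ⟨k, _⟩ 0) = 1
    rw [hVt 0 _ hk, map_one]
  have hmuE : R.Even (muF d) := by
    intro c hc h
    obtain ⟨hcK, h3⟩ := mem_kerG.1 h
    change sg (d.t ⟨c, _⟩ 0) = 1
    rw [d.t_eq (hνc c hc hcK)]
    rw [htaue c hc hcK] at h3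
    rw [hpos c hc hcK h3, map_one]
  refine ⟨kerS d, kerS_le d, ell d {0}, hNo, hker, hellO, ?_, ?_⟩
  · intro n
    apply pm_of_sq
    have h3 := ell_sq d {0}
    rw [← pow_two, ← MonoidHom.pow_apply, h3, MonoidHom.one_apply]
  · intro ψ hψ hψE
    have hy0 : d.T ⟨c0, hc0K⟩ = -1 := hneg c0 hc0 hc0K hec0
    have h3 := d4 d ψ ⟨c0, hc0K⟩ (hνc c0 hc0 hc0K) hy0
    have h4 : I.u K (ind (kerS d) K (ex (ell d {0} * rs _ (kerS_le d) ψ))) =
        I.u K (ind (kerG (tau d)) K (ex (muF d * rs _ (kerG_le _) ψ))) := by rw [h3]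
    have hFo := isOpen_kerG hK htauO
    rw [I.ind' _ K _ hNo (kerS_le d) (hellO.mul (hψ.rs _ _)),
      I.ind' _ K _ hFo (kerG_le _) (hmuO.mul (hψ.rs _ _))] at h4
    have h5 : rs _ (kerS_le d) ψ * ell d {0} = ell d {0} * rs _ (kerS_le d) ψ := by
      ext n
      simp only [MonoidHom.mul_apply]
      rw [mul_comm]
    have h6 : muF d * rs _ (kerG_le _) ψ = rs _ (kerG_le _) ψ * muF d := by
      ext n
      simp only [MonoidHom.mul_apply]
      rw [mul_comm]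
    rw [h5, h4, h6, lemA I hE hyp hFo (hψ.rs _ _) (by rw [← rs_pow, hψE]; rfl) hmuO (muF_pm d) hmuE,
      u_two I hK hψ htauO (fun k => sg_pm _) ⟨c0, hc0K⟩ (by rw [tau_apply, hy0, sg_neg])]
    congr 1
    -- compare `ψ τ` and `ψ e`
    have h7 : ψ * tau d = (ψ * e) * (e * tau d) := by
      ext k
      simp only [MonoidHom.mul_apply]
      rcases he2 k with h8 | h8 <;> rw [h8] <;> simp
    rw [h7]
    refine lemA I hE hyp hK (hψ.mul he) (pow_E_mul hE hψE he2) (he.mul htauO) ?_ ?_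
    · intro k
      rw [MonoidHom.mul_apply]
      rcases he2 k with h8 | h8 <;> rcases sg_pm (d.T k) with h9 | h9 <;>
        rw [h8, tau_apply, h9] <;> simp
    · intro c hc h
      rw [MonoidHom.mul_apply, htaue c hc h, ← pow_two]
      rcases he2 ⟨c, h⟩ with h8 | h8 <;> rw [h8] <;> simp

variable (htriv : ∀ F : Subgroup G, IsOpen (F : Set G) → I.u F (ex (1 : F →* ℂˣ)) = 1)

omit hE hyp in
include htriv in
lemma u_pm {K : Subgroup G} (hK : IsOpen (K : Set G)) {η : K →* ℂˣ} (hη : Opn η)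
    (hη2 : ∀ k, η k = 1 ∨ η k = -1) : I.u K (ex η) = 1 := by
  by_cases hx : ∃ x0, η x0 = -1
  · obtain ⟨x0, hx0⟩ := hx
    have h1 := u_two I hK (ψ := 1) Opn.one hη hη2 x0 hx0
    have h2 : rs _ (kerG_le η) (1 : K →* ℂˣ) = 1 := rfl
    have h3 : (1 : K →* ℂˣ) * η = η := by
      ext k
      simp
    rw [h2, h3, htriv K hK, htriv _ (isOpen_kerG hK hη), one_mul] at h1
    exact h1.symm
  · push Not at hx
    have h1 : η = 1 := by
      ext k
      rw [(hη2 k).resolve_right (hx k)]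
      rfl
    rw [h1]
    exact htriv K hK

include htriv in
/-- the main recursion -/
lemma lemP (j : ℕ) : 2 ^ (j + 1) ∣ E → ∀ {K : Subgroup G}, IsOpen (K : Set G) → ∀ {φ : K →* ℂˣ},
    Opn φ → φ ^ 2 ^ (j + 1) = 1 → R.Even φ → ∀ {e : K →* ℂˣ}, Opn e → (∀ k, e k = 1 ∨ e k = -1) →
    I.u K (ex (φ * e)) * I.u K (ex φ) ^ (2 ^ j - 1) = 1 := by
  induction j with
  | zero =>
    intro _ K hK φ hφ hφ2 _ e he he2
    rw [pow_zero, Nat.sub_self, pow_zero, mul_one]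
    refine u_pm I htriv hK (hφ.mul he) fun k => ?_
    have h1 : φ k = 1 ∨ φ k = -1 := by
      apply pm_of_sq
      rw [← pow_two]
      have := DFunLike.congr_fun hφ2 k
      rw [MonoidHom.pow_apply, MonoidHom.one_apply, zero_add, pow_one] at this
      exact this
    rw [MonoidHom.mul_apply]
    rcases h1 with h1 | h1 <;> rcases he2 k with h2 | h2 <;> rw [h1, h2] <;> simp
  | succ j ih =>
    intro hdvd K hK φ hφ hφ2 heven e he he2
    have hdvd' : 2 ^ (j + 1) ∣ E := (pow_dvd_pow 2 (Nat.le_succ _)).trans hdvd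
    have hval : ∀ k, φ k ^ 2 ^ (j + 1 + 1) = 1 := fun k => by
      rw [← MonoidHom.pow_apply, hφ2, MonoidHom.one_apply]
    have hφE : φ ^ E = 1 := by
      obtain ⟨s, hs⟩ := hdvd
      ext k
      rw [MonoidHom.pow_apply, hs, pow_mul, hval, one_pow]
      rfl
    have hη2 : ∀ k, (φ ^ 2 ^ (j + 1)) k = 1 ∨ (φ ^ 2 ^ (j + 1)) k = -1 := by
      intro k
      apply pm_of_sq
      rw [MonoidHom.pow_apply, ← pow_add, ← mul_two, ← pow_succ, hval]
    have hev : R.Even (φ ^ 2 ^ (j + 1)) := fun c hc h => by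
      rw [MonoidHom.pow_apply, heven c hc h, one_pow]
    have hφ1 : φ * (1 : K →* ℂˣ) = φ := by
      ext k
      simp
    have hexp : 2 ^ (j + 1) - 1 = 2 ^ j + (2 ^ j - 1) := by
      have : 0 < 2 ^ j := by positivity
      rw [pow_succ]
      omega
    by_cases hx : ∃ x0, (φ ^ 2 ^ (j + 1)) x0 = -1
    · obtain ⟨x0, hx0⟩ := hx
      have hηo : Opn (φ ^ 2 ^ (j + 1)) := hφ.pow _
      have hx0' : (φ ^ 2 ^ (j + 1)) x0 ≠ 1 := by
        rw [hx0]
        exact one_ne.symm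
      have hη22 : (φ ^ 2 ^ (j + 1)) ^ 2 = 1 := by
        ext k
        rw [MonoidHom.pow_apply, MonoidHom.pow_apply, ← pow_mul, ← pow_succ, hval]
        rfl
      have hNo := isOpen_kerG hK hηo
      have hker : rs _ (kerG_le (φ ^ 2 ^ (j + 1))) φ ^ 2 ^ (j + 1) = 1 := by
        ext n
        obtain ⟨h5, h6⟩ := mem_kerG.1 n.2
        have h7 : φ ⟨n, h5⟩ ^ 2 ^ (j + 1) = 1 := h6
        rw [MonoidHom.pow_apply]
        change ((φ ⟨n, h5⟩ ^ 2 ^ (j + 1) : ℂˣ) : ℂ) = 1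
        rw [h7, Units.val_one]
      -- the value at `N`
      have hN : I.u (kerG (φ ^ 2 ^ (j + 1))) (ex (rs _ (kerG_le (φ ^ 2 ^ (j + 1))) φ)) =
          I.u K (ex φ) ^ 2 := by
        rw [u_two I hK hφ hηo hη2 x0 hx0, lemA I hE hyp hK hφ hφE hηo hη2 hev, pow_two]
      by_cases hc : ∃ c, ∃ hc : c ∈ R.C, ∃ h : c ∈ K, e ⟨c, h⟩ = -1
      · obtain ⟨c0, hc0, hc0K, hec0⟩ := hc
        obtain ⟨N, hNK, θ, hNo', hNeq, hθ, hθ2, hrel⟩ :=
          stepD I hE hyp hK hηo hη22 x0 hx0' hev he he2 c0 hc0 hc0K hec0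
        subst hNeq
        have h1 := hrel φ hφ hφE
        have h2 := ih hdvd' hNo (hφ.rs _ hNK) hker (heven.rs _ _) hθ hθ2
        rw [h1] at h2
        have hN' : I.u (kerG (φ ^ 2 ^ (j + 1))) (ex (rs _ hNK φ)) = I.u K (ex φ) ^ 2 := hN
        rw [hN', ← pow_mul, mul_comm (I.u K (ex φ)), mul_assoc, ← pow_succ'] at h2
        have h3 : 2 * (2 ^ j - 1) + 1 = 2 ^ (j + 1) - 1 := by
          have : 0 < 2 ^ j := by positivity
          rw [pow_succ]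
          omega
        rw [h3] at h2
        exact h2
      · push Not at hc
        have heE : R.Even e := fun c hc' h => (he2 _).resolve_right (hc c hc' h)
        rw [lemA I hE hyp hK hφ hφE he he2 heE]
        have h2 := ih hdvd' hNo (hφ.rs _ (kerG_le _)) hker (heven.rs _ _) (e := 1) Opn.one
          (fun _ => Or.inl rfl)
        have h3 : rs _ (kerG_le (φ ^ 2 ^ (j + 1))) φ * (1 : kerG (φ ^ 2 ^ (j + 1)) →* ℂˣ) =
            rs _ (kerG_le (φ ^ 2 ^ (j + 1))) φ := by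
          ext k
          simp
        rw [h3, hN, ← pow_succ', ← pow_mul] at h2
        have h4 : 2 * (2 ^ j - 1 + 1) = 2 ^ (j + 1) - 1 + 1 := by
          have : 0 < 2 ^ j := by positivity
          rw [pow_succ]
          omega
        rw [h4, pow_succ'] at h2
        exact h2
    · push Not at hx
      have h0 : φ ^ 2 ^ (j + 1) = 1 := by
        ext k
        rw [(hη2 k).resolve_right (hx k)]
        rfl
      have h1 := ih hdvd' hK hφ h0 heven he he2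
      have h2 := ih hdvd' hK hφ h0 heven (e := 1) Opn.one (fun _ => Or.inl rfl)
      rw [hφ1, ← pow_succ'] at h2
      have h3 : 2 ^ j - 1 + 1 = 2 ^ j := by
        have : 0 < 2 ^ j := by positivity
        omega
      rw [h3] at h2
      rw [hexp, pow_add, h2, one_mul]
      exact h1

include htriv in
/-- even characters of `2`-power order: up to sign -/
lemma sq_even {j : ℕ} (hdvd : 2 ^ (j + 1) ∣ E) {K : Subgroup G} (hK : IsOpen (K : Set G))
    {φ : K →* ℂˣ} (hφ : Opn φ) (hφ2 : φ ^ 2 ^ (j + 1) = 1) (heven : R.Even φ) :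
    I.u K (ex φ) ^ 2 = 1 := by
  obtain ⟨δ, hδ, hδ2, hδT⟩ := R.wa K hK R.C (fun c hc n _ => R.conj c hc n)
  have hodd : R.Odd δ := fun c hc h => (hδT c hc h).2 hc
  have hφE : φ ^ E = 1 := by
    obtain ⟨s, hs⟩ := hdvd
    ext k
    have h1 : φ k ^ 2 ^ (j + 1) = 1 := by rw [← MonoidHom.pow_apply, hφ2, MonoidHom.one_apply]
    rw [MonoidHom.pow_apply, hs, pow_mul, h1, one_pow]
    rfl
  have h1 := lemA0 I hE hyp hK hφ hφE hδ hδ2 hodd
  have h2 := lemP I hE hyp htriv j hdvd hK hφ hφ2 heven hδ hδ2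
  have h3 := lemP I hE hyp htriv j hdvd hK hφ hφ2 heven (e := 1) Opn.one (fun _ => Or.inl rfl)
  have hφ1 : φ * (1 : K →* ℂˣ) = φ := by
    ext k
    simp
  rw [hφ1] at h3
  -- `u(φδ) = u(φ)`
  have h4 : I.u K (ex (φ * δ)) = I.u K (ex φ) := mul_right_cancel (h2.trans h3.symm)
  rw [h4] at h1
  rw [pow_two]
  exact h1

include htriv in
/-- Totally complex base fields suffice up to sign. -/
theorem complex_suffices_sign {K : Subgroup G} (hE0 : 0 < E)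
    (hK : IsOpen (K : Set G)) {ψ : K →* ℂˣ} (hψ : Opn ψ) (hψE : ψ ^ E = 1) :
    I.u K (ex ψ) ^ 2 = 1 := by
  let J : Inv G X :=
    { u := fun F f => I.u F f ^ 2
      add := fun F hF a ha b' hb' => by rw [I.add F hF a ha b' hb', mul_pow]
      ind' := fun F F' θ hF hFF' hθ => by rw [I.ind' F F' θ hF hFF' hθ] }
  refine odd_suffices (R := R) J hE ?_ hK hψ hψE
  intro F hF θ hθ hθE hodd
  change I.u F (ex θ) ^ 2 = 1
  obtain ⟨δ, hδ, hδ2, hδT⟩ := R.wa F hF R.C (fun c hc n _ => R.conj c hc n)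
  have hoddδ : R.Odd δ := fun c hc h => (hδT c hc h).2 hc
  have h1 := lemA0 I hE hyp hF hθ hθE hδ hδ2 hoddδ
  have heven : R.Even (θ * δ) := fun c hc h => by
    rw [MonoidHom.mul_apply, hodd c hc h, hoddδ c hc h, neg_mul_neg, mul_one]
  have hφE : (θ * δ) ^ E = 1 := pow_E_mul hE hθE hδ2
  have hφo : Opn (θ * δ) := hθ.mul hδ
  obtain ⟨φ, hφ⟩ : ∃ φ, φ = θ * δ := ⟨_, rfl⟩
  rw [← hφ] at h1 heven hφE hφo
  -- split `φ` in a part of `2`-power order and a part of odd order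
  obtain ⟨b, m, hm2, hEbm⟩ := Nat.exists_eq_two_pow_mul_odd hE0.ne'
  have hb : b ≠ 0 := by
    rintro rfl
    rw [pow_zero, one_mul] at hEbm
    rw [hEbm] at hE
    exact (Nat.not_even_iff_odd.2 hm2) hE
  obtain ⟨j, rfl⟩ : ∃ j, b = j + 1 := ⟨b - 1, by omega⟩
  have hcop : Nat.Coprime (2 ^ (j + 1)) m := Nat.Coprime.pow_left _ (Nat.coprime_two_left.2 hm2)
  obtain ⟨n1, hn11, hn12⟩ := Nat.chineseRemainder hcop 1 0
  obtain ⟨n2, hn21, hn22⟩ := Nat.chineseRemainder hcop 0 1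
  have hval : ∀ k, φ k ^ E = 1 := fun k => by
    rw [← MonoidHom.pow_apply, hφE, MonoidHom.one_apply]
  have hsplit : φ = φ ^ n1 * φ ^ n2 := by
    ext k
    rw [MonoidHom.mul_apply, MonoidHom.pow_apply, MonoidHom.pow_apply, ← pow_add]
    have h2 : n1 + n2 ≡ 1 [MOD E] := by
      rw [hEbm]
      refine (Nat.modEq_and_modEq_iff_modEq_mul hcop).1 ⟨?_, ?_⟩
      · exact (hn11.add hn21)
      · exact (hn12.add hn22)
    have h3 : φ k ^ (n1 + n2) = φ k ^ 1 := by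
      rw [pow_eq_pow_iff_modEq]
      exact h2.of_dvd (orderOf_dvd_of_pow_eq_one (hval k))
    rw [h3, pow_one]
  have hd1 : m ∣ n1 := (Nat.modEq_zero_iff_dvd.1 hn12)
  have hd2 : 2 ^ (j + 1) ∣ n2 := (Nat.modEq_zero_iff_dvd.1 hn21)
  have h2 : (φ ^ n1) ^ 2 ^ (j + 1) = 1 := by
    obtain ⟨s, hs⟩ := hd1
    ext k
    rw [MonoidHom.pow_apply, MonoidHom.pow_apply, ← pow_mul, hs]
    have h3 : m * s * 2 ^ (j + 1) = E * s := by rw [hEbm]; ring
    rw [h3, pow_mul, hval, one_pow]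
    rfl
  have h3 : (φ ^ n2) ^ m = 1 := by
    obtain ⟨s, hs⟩ := hd2
    ext k
    rw [MonoidHom.pow_apply, MonoidHom.pow_apply, ← pow_mul, hs]
    have h4 : 2 ^ (j + 1) * s * m = E * s := by rw [hEbm]; ring
    rw [h4, pow_mul, hval, one_pow]
    rfl
  have hev : ∀ n, R.Even (φ ^ n) := fun n c hc h => by
    rw [MonoidHom.pow_apply, heven c hc h, one_pow]
  have hdE : 2 ^ (j + 1) ∣ E := ⟨m, hEbm⟩
  have h1E : (φ ^ n1) ^ E = 1 := by
    ext k
    rw [MonoidHom.pow_apply, MonoidHom.pow_apply, ← pow_mul, mul_comm, pow_mul, hval, one_pow]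
    rfl
  have h4 : I.u F (ex φ) = I.u F (ex (φ ^ n1)) := by
    conv_lhs => rw [hsplit]
    exact lemB I hE hyp m hm2 ⟨2 ^ (j + 1), by rw [hEbm]; ring⟩ hF (hφo.pow n2) h3 (hev n2)
      (hφo.pow n1) h1E
  have h5 : I.u F (ex φ) ^ 2 = 1 := by
    rw [h4]
    exact sq_even I hE hyp htriv hdE hF (hφo.pow n1) h2 (hev n1)
  have h6 : (I.u F (ex θ) * I.u F (ex φ)) ^ 2 = 1 := by rw [h1, one_pow]
  rw [mul_pow, h5, mul_one] at h6
  exact h6

end Pool.Agent.R386.RP
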