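import Pool.Agent.R386.RP.Field2
import Pool.Agent.R386.RP.Main4

/-!
# From number fields to open subgroups
-/

set_option autoImplicit false
set_option linter.unusedSectionVars false

namespace Pool.Agent.R386.RP

open Finset NumberField

lemma ext_emb {k : Type} [Field k] (F : SubField k) {A : Type} [Field A] [IsAlgClosed A]
    (τ : F →+* A) : ∃ ι : AlgebraicClosure k →+* A, ∀ z : F, ι z = τ z := by
  letI : Algebra F A := τ.toAlgebra
  haveI : Algebra.IsAlgebraic F (AlgebraicClosure k) := Algebra.IsAlgebraic.tower_top (K := k) F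
  let ι : AlgebraicClosure k →ₐ[F] A := IsAlgClosed.lift
  exact ⟨ι.toRingHom, fun z => ι.commutes z⟩

/-- `F` has no real embedding -/
def NoReal (F : SubField ℚ) : Prop := ¬ ∃ τ : F →+* ℂ, ∀ z, (starRingEnd ℂ) (τ z) = τ z

lemma noReal_of_av {F : SubField ℚ} (h : RQ.Av F.fixingSubgroup) : NoReal F := by
  rintro ⟨τ, hτ⟩
  obtain ⟨ι, hι⟩ := ext_emb F τ
  obtain ⟨c, hc⟩ := exists_conj ι ((starRingEnd ℂ).comp ι)
  have hcc : IsComplexConj c := ⟨ι, fun z => (hc z).symm⟩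
  refine h c hcc ?_
  rw [IntermediateField.mem_fixingSubgroup_iff]
  intro z hz
  apply ι.injective
  rw [← hc]
  change (starRingEnd ℂ) (ι z) = ι z
  rw [hι ⟨z, hz⟩, hτ]

/-- trivial on the absolute Galois group of a number field -/
def Art {F : SubField ℚ} (ψ : F.fixingSubgroup →* ℂˣ) : Prop :=
  ∃ L : SubField ℚ, FiniteDimensional ℚ L ∧ ∀ g : F.fixingSubgroup,
    (g : AbsGal ℚ) ∈ L.fixingSubgroup → ψ g = 1

lemma art_iff {F : SubField ℚ} (ψ : F.fixingSubgroup →* ℂˣ) : Art ψ ↔ Opn ψ := by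
  constructor
  · rintro ⟨L, hL, h⟩
    exact ⟨L.fixingSubgroup, isOpen_of_nf L, h⟩
  · rintro ⟨U, hU, h⟩
    obtain ⟨h1, h2⟩ := exists_nf hU
    exact ⟨_, h1, fun g hg => h g (by rwa [h2] at hg)⟩

/-- an Artin character has finite order -/
lemma Opn.finite {G : Type} [Group G] [TopologicalSpace G] [IsTopologicalGroup G] [CompactSpace G]
    {H : Subgroup G} {ψ : H →* ℂˣ} (hψ : Opn ψ) : ∃ n : ℕ, 0 < n ∧ ψ ^ n = 1 := by
  obtain ⟨U, hU, h⟩ := hψ
  have hfin : Finite (G ⧸ U) := Subgroup.quotient_finite_of_isOpen U hU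
  have hfi : U.FiniteIndex := Subgroup.finiteIndex_of_finite_quotient
  refine ⟨U.index.factorial, Nat.factorial_pos _, ?_⟩
  ext x
  rw [MonoidHom.pow_apply, ← map_pow]
  have h1 : ((x ^ U.index.factorial : H) : G) ∈ U := by
    rw [Subgroup.coe_pow]
    exact Subgroup.pow_mem_of_index_ne_zero_of_dvd hfi.index_ne_zero _
      (fun m hm hm' => Nat.dvd_factorial hm hm')
  rw [h _ h1]
  rfl

lemma pow_two_mul {H : Type} [Group H] {ψ : H →* ℂˣ} {n : ℕ} (hn : ψ ^ n = 1) : ψ ^ (2 * n) = 1 := by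
  ext x
  have h1 : ψ x ^ n = 1 := by rw [← MonoidHom.pow_apply, hn, MonoidHom.one_apply]
  rw [MonoidHom.pow_apply, mul_comm, pow_mul, h1, one_pow]
  rfl

/-- virtual characters, in terms of number fields -/
def VV (K : SubField ℚ) : AddSubgroup (AbsGal ℚ → ℂ) :=
  AddSubgroup.closure {f | ∃ (F : SubField ℚ) (ψ : F.fixingSubgroup →* ℂˣ), FiniteDimensional ℚ F ∧
    K ≤ F ∧ Art ψ ∧ f = ind F.fixingSubgroup K.fixingSubgroup (ex ψ)}

lemma VV_eq (K : SubField ℚ) : VV K = RR K.fixingSubgroup := by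
  unfold VV RR
  congr 1
  ext f
  constructor
  · rintro ⟨F, ψ, hF, hKF, hψ, rfl⟩
    exact ⟨F.fixingSubgroup, ψ, isOpen_of_nf F, IntermediateField.fixingSubgroup_le hKF,
      (art_iff ψ).1 hψ, rfl⟩
  · rintro ⟨H, ψ, hH, hHK, hψ, rfl⟩
    obtain ⟨h1, h2⟩ := exists_nf hH
    have key : ∀ F : SubField ℚ, FiniteDimensional ℚ F → F.fixingSubgroup = H →
        ∃ (F : SubField ℚ) (ψ' : F.fixingSubgroup →* ℂˣ), FiniteDimensional ℚ F ∧
          K ≤ F ∧ Art ψ' ∧ ind H K.fixingSubgroup (ex ψ) =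
            ind F.fixingSubgroup K.fixingSubgroup (ex ψ') := by
      rintro F hF rfl
      refine ⟨F, ψ, hF, ?_, (art_iff ψ).2 hψ, rfl⟩
      have h3 := IntermediateField.fixedField_le hHK
      rw [fixedField_fixing, fixedField_fixing] at h3
      exact h3
    exact key _ h1 h2

/-- an invariant, in terms of number fields -/
structure NInv (X : Type) [CommGroup X] where
  u : SubField ℚ → (AbsGal ℚ → ℂ) → X
  add : ∀ K : SubField ℚ, FiniteDimensional ℚ K → ∀ a ∈ VV K, ∀ b ∈ VV K,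
    u K (a + b) = u K a * u K b
  ind' : ∀ (K F : SubField ℚ), FiniteDimensional ℚ F → K ≤ F → ∀ ψ : F.fixingSubgroup →* ℂˣ, Art ψ →
    u K (ind F.fixingSubgroup K.fixingSubgroup (ex ψ)) = u F (ex ψ)

variable {X : Type} [CommGroup X]

lemma fd_of_le {K F : SubField ℚ} (h : FiniteDimensional ℚ F) (hKF : K ≤ F) : FiniteDimensional ℚ K := by
  have h1 : Function.Injective (IntermediateField.inclusion hKF) := IntermediateField.inclusion_injective hKF
  exact FiniteDimensional.of_injective (IntermediateField.inclusion hKF).toLinearMap h1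

/-- the invariant of open subgroups -/
noncomputable def NInv.toInv (I : NInv X) : Inv (AbsGal ℚ) X where
  u H f := I.u (IntermediateField.fixedField H) f
  add K hK a ha b hb := by
    obtain ⟨h1, h2⟩ := exists_nf hK
    refine I.add _ h1 a ?_ b ?_ <;> rw [VV_eq, h2] <;> assumption
  ind' H K ψ hH hHK hψ := by
    obtain ⟨h1, h2⟩ := exists_nf hH
    have hK : IsOpen (K : Set (AbsGal ℚ)) := Subgroup.isOpen_mono hHK hH
    obtain ⟨h3, h4⟩ := exists_nf hK
    have key : ∀ F E : SubField ℚ, FiniteDimensional ℚ F → F.fixingSubgroup = H →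
        E.fixingSubgroup = K →
        I.u (IntermediateField.fixedField K) (ind H K (ex ψ)) =
          I.u (IntermediateField.fixedField H) (ex ψ) := by
      rintro F E hF rfl rfl
      rw [fixedField_fixing, fixedField_fixing]
      refine I.ind' E F hF ?_ ψ ((art_iff ψ).2 hψ)
      have h3 := IntermediateField.fixedField_le hHK
      rw [fixedField_fixing, fixedField_fixing] at h3
      exact h3
    exact key _ _ h1 h2 h4

lemma NInv.toInv_u (I : NInv X) (F : SubField ℚ) (f : AbsGal ℚ → ℂ) :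
    I.toInv.u F.fixingSubgroup f = I.u F f := by
  change I.u (IntermediateField.fixedField F.fixingSubgroup) f = I.u F f
  rw [fixedField_fixing]

/-- transport of hypotheses -/
lemma transport {P : ∀ H : Subgroup (AbsGal ℚ), (H →* ℂˣ) → Prop}
    (h : ∀ F : SubField ℚ, FiniteDimensional ℚ F → ∀ ψ : F.fixingSubgroup →* ℂˣ, P F.fixingSubgroup ψ)
    (H : Subgroup (AbsGal ℚ)) (hH : IsOpen (H : Set (AbsGal ℚ))) (ψ : H →* ℂˣ) : P H ψ := by
  obtain ⟨h1, h2⟩ := exists_nf hH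
  have key : ∀ F : SubField ℚ, FiniteDimensional ℚ F → F.fixingSubgroup = H → P H ψ := by
    rintro F hF rfl
    exact h F hF ψ
  exact key _ h1 h2

theorem n_odd (I : NInv X) {E : ℕ} (hE : Even E)
    (hyp : ∀ F : SubField ℚ, FiniteDimensional ℚ F → ∀ ψ : F.fixingSubgroup →* ℂˣ, Art ψ → ψ ^ E = 1 →
      (∀ c, IsComplexConj c → ∀ h : c ∈ F.fixingSubgroup, ψ ⟨c, h⟩ = -1) → I.u F (ex ψ) = 1)
    (F : SubField ℚ) (hF : FiniteDimensional ℚ F) (ψ : F.fixingSubgroup →* ℂˣ) (hψ : Art ψ)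
    (hψE : ψ ^ E = 1) : I.u F (ex ψ) = 1 := by
  rw [← I.toInv_u]
  refine odd_suffices (R := RQ) I.toInv hE ?_ (isOpen_of_nf F) ((art_iff ψ).1 hψ) hψE
  intro H hH θ
  refine transport (P := fun H θ => Opn θ → θ ^ E = 1 → RQ.Odd θ → I.toInv.u H (ex θ) = 1) ?_ H hH θ
  intro F' hF' θ' h1 h2 h3
  rw [I.toInv_u]
  exact hyp F' hF' θ' ((art_iff θ').2 h1) h2 h3

theorem n_even (I : NInv X) {E : ℕ} (hE : Even E)
    (hyp : ∀ F : SubField ℚ, FiniteDimensional ℚ F → ∀ ψ : F.fixingSubgroup →* ℂˣ, Art ψ → ψ ^ E = 1 →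
      (∀ c, IsComplexConj c → ∀ h : c ∈ F.fixingSubgroup, ψ ⟨c, h⟩ = 1) → I.u F (ex ψ) = 1)
    (F : SubField ℚ) (hF : FiniteDimensional ℚ F) (ψ : F.fixingSubgroup →* ℂˣ) (hψ : Art ψ)
    (hψE : ψ ^ E = 1) : I.u F (ex ψ) = 1 := by
  rw [← I.toInv_u]
  refine even_suffices (R := RQ) I.toInv hE ?_ (isOpen_of_nf F) ((art_iff ψ).1 hψ) hψE
  intro H hH θ
  refine transport (P := fun H θ => Opn θ → θ ^ E = 1 → RQ.Even θ → I.toInv.u H (ex θ) = 1) ?_ H hH θ
  intro F' hF' θ' h1 h2 h3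
  rw [I.toInv_u]
  exact hyp F' hF' θ' ((art_iff θ').2 h1) h2 h3

theorem n_complex (I : NInv X)
    (htriv : ∀ F : SubField ℚ, FiniteDimensional ℚ F → I.u F (ex (1 : F.fixingSubgroup →* ℂˣ)) = 1)
    {E : ℕ} (hE0 : 0 < E) (hE : Even E)
    (hyp : ∀ F : SubField ℚ, FiniteDimensional ℚ F → NoReal F → ∀ ψ : F.fixingSubgroup →* ℂˣ, Art ψ →
      ψ ^ E = 1 → I.u F (ex ψ) = 1)
    (F : SubField ℚ) (hF : FiniteDimensional ℚ F) (ψ : F.fixingSubgroup →* ℂˣ) (hψ : Art ψ)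
    (hψE : ψ ^ E = 1) : I.u F (ex ψ) ^ 2 = 1 ∧ (¬ 4 ∣ E → I.u F (ex ψ) = 1) := by
  rw [← I.toInv_u]
  have hyp' : ∀ H : Subgroup (AbsGal ℚ), IsOpen (H : Set (AbsGal ℚ)) → RQ.Av H →
      ∀ θ : H →* ℂˣ, Opn θ → θ ^ E = 1 → I.toInv.u H (ex θ) = 1 := by
    intro H hH hav θ
    refine transport (P := fun H θ => RQ.Av H → Opn θ → θ ^ E = 1 →
      I.toInv.u H (ex θ) = 1) ?_ H hH θ hav
    intro F' hF' θ' h0 h1 h2
    rw [I.toInv_u]
    exact hyp F' hF' (noReal_of_av h0) θ' ((art_iff θ').2 h1) h2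
  have htriv' : ∀ H : Subgroup (AbsGal ℚ), IsOpen (H : Set (AbsGal ℚ)) →
      I.toInv.u H (ex (1 : H →* ℂˣ)) = 1 := by
    intro H hH
    refine transport (P := fun H _ => I.toInv.u H (ex (1 : H →* ℂˣ)) = 1) ?_ H hH 1
    intro F' hF' _
    rw [I.toInv_u]
    exact htriv F' hF'
  refine ⟨?_, fun h4 => ?_⟩
  · exact complex_suffices_sign (R := RQ) I.toInv hE hyp' htriv' hE0 (isOpen_of_nf F)
      ((art_iff ψ).1 hψ) hψE
  · obtain ⟨m, hm⟩ := hE.two_dvd
    have hmodd : Odd m := by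
      rw [← Nat.not_even_iff_odd]
      intro hme
      obtain ⟨s, hs⟩ := hme.two_dvd
      exact h4 ⟨s, by rw [hm, hs]; ring⟩
    have h1 := complex_suffices (R := RQ) I.toInv hE hyp' htriv' hmodd 0 (by rw [hm]; ring)
      (isOpen_of_nf F) ((art_iff ψ).1 hψ) hψE
    simpa using h1

/-- from linear characters to all virtual characters -/
theorem n_virtual (I : NInv X) (K : SubField ℚ) (hK : FiniteDimensional ℚ K)
    (h : ∀ F : SubField ℚ, FiniteDimensional ℚ F → K ≤ F → ∀ ψ : F.fixingSubgroup →* ℂˣ, Art ψ →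
      I.u F (ex ψ) = 1) (f : AbsGal ℚ → ℂ) (hf : f ∈ VV K) : I.u K f = 1 := by
  have hf' := hf
  unfold VV at hf'
  refine (AddSubgroup.closure_induction (p := fun x _ => I.u K x = 1 ∧ x ∈ VV K) ?_ ?_ ?_ ?_ hf').1
  · rintro x ⟨F, ψ, hF, hKF, hψ, rfl⟩
    exact ⟨(I.ind' K F hF hKF ψ hψ).trans (h F hF hKF ψ hψ),
      AddSubgroup.subset_closure ⟨F, ψ, hF, hKF, hψ, rfl⟩⟩
  · have h1 := I.add K hK 0 (zero_mem _) 0 (zero_mem _)
    rw [add_zero] at h1
    exact ⟨mul_eq_left.1 h1.symm, zero_mem _⟩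
  · intro x y _ _ hx hy
    refine ⟨?_, add_mem hx.2 hy.2⟩
    rw [I.add K hK x hx.2 y hy.2, hx.1, hy.1, mul_one]
  · intro x _ hx
    refine ⟨?_, neg_mem hx.2⟩
    have h1 := I.add K hK x hx.2 (-x) (neg_mem hx.2)
    have h0 := I.add K hK 0 (zero_mem _) 0 (zero_mem _)
    rw [add_zero] at h0
    have h2 : I.u K 0 = 1 := mul_eq_left.1 h0.symm
    rw [add_neg_cancel, h2, hx.1, one_mul] at h1
    exact h1.symm

/-- the square of an invariant -/
def NInv.sq (I : NInv X) : NInv X where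
  u K f := I.u K f ^ 2
  add K hK a ha b hb := by rw [I.add K hK a ha b hb, mul_pow]
  ind' K F hF hKF ψ hψ := by rw [I.ind' K F hF hKF ψ hψ]

end Pool.Agent.R386.RP
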