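import Mathlib

/-!
# Linear characters of open subgroups and induction, as functions on the big group
-/

set_option autoImplicit false
set_option linter.unusedSectionVars false

namespace Pool.Agent.R386.RP

variable {G : Type} [Group G]

/-- the extension by zero of a linear character of a subgroup -/
noncomputable def ex {H : Subgroup G} (ψ : H →* ℂˣ) (g : G) : ℂ :=
  open Classical in if h : g ∈ H then (ψ ⟨g, h⟩ : ℂ) else 0

/-- restriction of a linear character -/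
def rs {K : Subgroup G} (H : Subgroup G) (h : H ≤ K) (ψ : K →* ℂˣ) : H →* ℂˣ :=
  ψ.comp (Subgroup.inclusion h)

/-- the function on `G` induced from a function on `H` to `K` -/
noncomputable def ind (H K : Subgroup G) (f : G → ℂ) (g : G) : ℂ :=
  ∑ᶠ x : K ⧸ H.subgroupOf K, f ((x.out : G)⁻¹ * g * (x.out : G))

lemma ex_of_mem {H : Subgroup G} (ψ : H →* ℂˣ) {g : G} (h : g ∈ H) : ex ψ g = ψ ⟨g, h⟩ := by
  unfold ex
  rw [dif_pos h]

lemma ex_of_not_mem {H : Subgroup G} (ψ : H →* ℂˣ) {g : G} (h : g ∉ H) : ex ψ g = 0 := by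
  unfold ex
  rw [dif_neg h]

lemma ex_conj {H : Subgroup G} (ψ : H →* ℂˣ) {h : G} (hh : h ∈ H) (g : G) :
    ex ψ (h⁻¹ * g * h) = ex ψ g := by
  by_cases hg : g ∈ H
  · have h1 : h⁻¹ * g * h ∈ H := H.mul_mem (H.mul_mem (H.inv_mem hh) hg) hh
    rw [ex_of_mem ψ hg, ex_of_mem ψ h1]
    have h2 : (⟨h⁻¹ * g * h, h1⟩ : H) = (⟨h, hh⟩ : H)⁻¹ * ⟨g, hg⟩ * ⟨h, hh⟩ := rfl
    rw [h2, map_mul, map_mul, map_inv]
    congr 1
    rw [mul_comm (ψ ⟨h, hh⟩)⁻¹, inv_mul_cancel_right]
  · have h1 : h⁻¹ * g * h ∉ H := by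
      intro h2
      apply hg
      have h3 := H.mul_mem (H.mul_mem hh h2) (H.inv_mem hh)
      have h4 : h * (h⁻¹ * g * h) * h⁻¹ = g := by group
      rwa [h4] at h3
    rw [ex_of_not_mem ψ hg, ex_of_not_mem ψ h1]

lemma ind_eq {ι : Type} [Fintype ι] {H K : Subgroup G} (r : ι → K)
    (hr : Function.Bijective (fun i => (r i : K ⧸ H.subgroupOf K))) (f : G → ℂ)
    (hf : ∀ h ∈ H, ∀ g, f (h⁻¹ * g * h) = f g) (g : G) :
    ind H K f g = ∑ i, f ((r i : G)⁻¹ * g * (r i : G)) := by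
  unfold ind
  rw [← finsum_comp_equiv (Equiv.ofBijective _ hr), finsum_eq_sum_of_fintype]
  refine Finset.sum_congr rfl fun i _ => ?_
  have h1 : ((((r i : K ⧸ H.subgroupOf K)).out : K) : K ⧸ H.subgroupOf K) = (r i : K ⧸ H.subgroupOf K) :=
    Quotient.out_eq _
  have h2 : (r i)⁻¹ * ((r i : K ⧸ H.subgroupOf K)).out ∈ H.subgroupOf K := QuotientGroup.eq.1 h1.symm
  set x : K := ((r i : K ⧸ H.subgroupOf K)).out with hx
  have h3 : (r i : G)⁻¹ * (x : G) ∈ H := Subgroup.mem_subgroupOf.1 h2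
  have h4 := hf _ h3 ((r i : G)⁻¹ * g * (r i : G))
  rw [← h4]
  simp only [Equiv.ofBijective_apply]
  change f ((x : G)⁻¹ * g * (x : G)) = _
  congr 1
  group

lemma ind_self {H : Subgroup G} (ψ : H →* ℂˣ) : ind H H (ex ψ) = ex ψ := by
  funext g
  have hr : Function.Bijective (fun _ : Unit => ((1 : H) : H ⧸ H.subgroupOf H)) := by
    constructor
    · intro a b _
      rfl
    · intro x
      refine ⟨(), ?_⟩
      induction x using QuotientGroup.induction_on with
      | H z =>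
        rw [QuotientGroup.eq]
        exact Subgroup.mem_subgroupOf.2 (by simp)
  rw [ind_eq (fun _ : Unit => (1 : H)) hr (ex ψ) (fun h hh g => ex_conj ψ hh g)]
  simp

section perm

variable {K : Subgroup G} {X : Type} [Fintype X] [MulAction K X]

open Classical in
/-- the product of a linear character of `K` and a permutation character -/
noncomputable def permf (X : Type) [Fintype X] [MulAction K X] (ψ : K →* ℂˣ) (g : G) : ℂ :=
  if h : g ∈ K then ∑ x : X, (if (⟨g, h⟩ : K) • x = x then (ψ ⟨g, h⟩ : ℂ) else 0) else 0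

/-- the stabilizer as a subgroup of `G` -/
def stb (x : X) : Subgroup G := (MulAction.stabilizer K x).map K.subtype

lemma mem_stb {x : X} {g : G} : g ∈ (stb (K := K) x : Subgroup G) ↔ ∃ h : g ∈ K, (⟨g, h⟩ : K) • x = x := by
  unfold stb
  rw [Subgroup.mem_map]
  constructor
  · rintro ⟨k, hk, rfl⟩
    exact ⟨k.2, hk⟩
  · rintro ⟨h, hx⟩
    exact ⟨⟨g, h⟩, hx, rfl⟩

lemma stb_le (x : X) : (stb (K := K) x : Subgroup G) ≤ K := by
  intro g hg
  exact (mem_stb.1 hg).1

open Classical in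
lemma ind_stb (b : X) (ψ : K →* ℂˣ) (g : G) (hg : g ∈ K) :
    ind (stb (K := K) b) K (ex (rs _ (stb_le b) ψ)) g =
      ∑ y : MulAction.orbit K b, (if (⟨g, hg⟩ : K) • (y : X) = y then (ψ ⟨g, hg⟩ : ℂ) else 0) := by
  have hsurj : ∀ y : MulAction.orbit K b, ∃ k : K, k • b = (y : X) := fun y => y.2
  choose r hr using hsurj
  have hbij : Function.Bijective (fun y : MulAction.orbit K b =>
      (r y : K ⧸ (stb (K := K) b).subgroupOf K)) := by
    constructor
    · intro y z hyz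
      have h1 := QuotientGroup.eq.1 hyz
      have h2 := (mem_stb.1 (Subgroup.mem_subgroupOf.1 h1)).2
      have h3 : ((r y)⁻¹ * r z) • b = b := h2
      rw [mul_smul, inv_smul_eq_iff, hr, hr] at h3
      exact Subtype.ext h3.symm
    · intro x
      induction x using QuotientGroup.induction_on with
      | H z =>
        refine ⟨⟨z • b, MulAction.mem_orbit b z⟩, ?_⟩
        rw [QuotientGroup.eq]
        refine Subgroup.mem_subgroupOf.2 (mem_stb.2 ⟨((r ⟨z • b, MulAction.mem_orbit b z⟩)⁻¹ * z).2, ?_⟩)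
        change ((r ⟨z • b, MulAction.mem_orbit b z⟩)⁻¹ * z) • b = b
        rw [mul_smul, inv_smul_eq_iff, hr]
  rw [ind_eq r hbij _ (fun h hh g => ex_conj _ hh g)]
  refine Finset.sum_congr rfl fun y _ => ?_
  have hk : (r y : G)⁻¹ * g * (r y : G) ∈ K :=
    K.mul_mem (K.mul_mem (K.inv_mem (r y).2) hg) (r y).2
  have key : ((⟨(r y : G)⁻¹ * g * (r y : G), hk⟩ : K) • b = b) ↔ (⟨g, hg⟩ : K) • (y : X) = y := by
    have h1 : (⟨(r y : G)⁻¹ * g * (r y : G), hk⟩ : K) = (r y)⁻¹ * (⟨g, hg⟩ : K) * r y := rfl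
    rw [h1, mul_smul, mul_smul, inv_smul_eq_iff, hr]
  by_cases hfix : (⟨g, hg⟩ : K) • (y : X) = y
  · rw [if_pos hfix]
    have h2 : (r y : G)⁻¹ * g * (r y : G) ∈ (stb (K := K) b : Subgroup G) := mem_stb.2 ⟨hk, key.2 hfix⟩
    rw [ex_of_mem _ h2]
    have h3 : (⟨(r y : G)⁻¹ * g * (r y : G), hk⟩ : K) = (r y)⁻¹ * (⟨g, hg⟩ : K) * r y := rfl
    change ((ψ ⟨(r y : G)⁻¹ * g * (r y : G), hk⟩ : ℂˣ) : ℂ) = _
    rw [h3, map_mul, map_mul, map_inv]
    congr 1
    rw [mul_comm (ψ (r y))⁻¹, inv_mul_cancel_right]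
  · rw [if_neg hfix]
    refine ex_of_not_mem _ fun h2 => hfix (key.1 (mem_stb.1 h2).2)

lemma ind_of_not_mem {H : Subgroup G} (hHK : H ≤ K) (ψ : H →* ℂˣ) {g : G} (hg : g ∉ K) :
    ind H K (ex ψ) g = 0 := by
  unfold ind
  have h0 : ∀ x : K ⧸ H.subgroupOf K, ex ψ ((x.out : G)⁻¹ * g * (x.out : G)) = 0 := by
    intro x
    refine ex_of_not_mem _ fun h2 => hg ?_
    have h3 := K.mul_mem (K.mul_mem (x.out).2 (hHK h2)) (K.inv_mem (x.out).2)
    have h4 : (x.out : G) * ((x.out : G)⁻¹ * g * (x.out : G)) * (x.out : G)⁻¹ = g := by group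
    rwa [h4] at h3
  rw [finsum_congr h0, finsum_zero]

open Classical in
theorem permf_eq (ψ : K →* ℂˣ) :
    permf X ψ = ∑ ω : Quotient (MulAction.orbitRel K X),
      ind (stb (K := K) ω.out) K (ex (rs _ (stb_le ω.out) ψ)) := by
  funext g
  rw [Finset.sum_apply]
  by_cases hg : g ∈ K
  · unfold permf
    rw [dif_pos hg]
    rw [← (MulAction.selfEquivSigmaOrbits K X).symm.sum_comp, Fintype.sum_sigma]
    refine Finset.sum_congr rfl fun ω _ => ?_
    rw [ind_stb ω.out ψ g hg]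
    rfl
  · unfold permf
    rw [dif_neg hg]
    symm
    refine Finset.sum_eq_zero fun ω _ => ?_
    exact ind_of_not_mem (stb_le _) _ hg

end perm

end Pool.Agent.R386.RP
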