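import Pool.Agent.R386.RP.Wr

/-!
# The character identity for the finite set
-/

set_option autoImplicit false
set_option linter.unusedSectionVars false

namespace Pool.Agent.R386.RP

open Finset

namespace Dat

variable {Γ : Type} [Group Γ] {p : ℕ} (d : Dat Γ p) [Fact p.Prime]

/-- rotation of subsets of `ℤ/p` -/
def rot (i : ZMod p) (l : Finset (ZMod p)) : Finset (ZMod p) := l.map (addLeftEmbedding i)

lemma mem_rot {i x : ZMod p} {l : Finset (ZMod p)} : x ∈ rot i l ↔ x - i ∈ l := by
  unfold rot
  rw [mem_map]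
  constructor
  · rintro ⟨y, hy, rfl⟩
    simpa using hy
  · intro h
    exact ⟨x - i, h, by simp⟩

lemma rot_zero (l : Finset (ZMod p)) : rot 0 l = l := by
  ext x
  rw [mem_rot, sub_zero]

lemma rot_add (i j : ZMod p) (l : Finset (ZMod p)) : rot (i + j) l = rot i (rot j l) := by
  ext x
  rw [mem_rot, mem_rot, mem_rot, sub_sub]

lemma card_rot (i : ZMod p) (l : Finset (ZMod p)) : (rot i l).card = l.card := card_map _

/-- the nonempty subsets of even cardinality -/
def SS (p : ℕ) [Fact p.Prime] : Type := {l : Finset (ZMod p) // Even l.card ∧ l.Nonempty}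

noncomputable instance : Fintype (SS p) := by
  classical
  unfold SS
  infer_instance

lemma rot_free (hp : Odd p) {i : ZMod p} (l : SS p) (h : rot i l.1 = l.1) : i = 0 := by
  by_contra hi
  obtain ⟨a, ha⟩ := l.2.2
  have h1 : ∀ n : ℕ, a + n * i ∈ l.1 := by
    intro n
    induction n with
    | zero => simpa using ha
    | succ n ih =>
      rw [← h, mem_rot]
      have h2 : a + ((n + 1 : ℕ) : ZMod p) * i - i = a + n * i := by push_cast; ring
      rw [h2]
      exact ih
  have h2 : l.1 = univ := by
    rw [eq_univ_iff_forall]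
    intro b
    have h3 := h1 ((b - a) * i⁻¹).val
    rw [ZMod.natCast_val, ZMod.cast_id', id, mul_assoc, inv_mul_cancel₀ hi, mul_one,
      add_sub_cancel] at h3
    exact h3
  have h3 := l.2.1
  rw [h2, card_univ, ZMod.card] at h3
  exact (Nat.not_even_iff_odd.2 hp) h3

/-- rotation on `SS` -/
def rotS (i : ZMod p) (l : SS p) : SS p :=
  ⟨rot i l.1, by rw [card_rot]; exact l.2.1, by unfold rot; exact l.2.2.map⟩

/-- the rotation classes -/
def rel (p : ℕ) [Fact p.Prime] : Setoid (SS p) where
  r a b := ∃ i, rotS i a = b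
  iseqv :=
    { refl := fun a => ⟨0, Subtype.ext (rot_zero a.1)⟩
      symm := by
        rintro a b ⟨i, rfl⟩
        refine ⟨-i, Subtype.ext ?_⟩
        change rot (-i) (rot i a.1) = a.1
        rw [← rot_add, neg_add_cancel, rot_zero]
      trans := by
        rintro a b c ⟨i, rfl⟩ ⟨j, rfl⟩
        refine ⟨j + i, Subtype.ext ?_⟩
        change rot (j + i) a.1 = rot j (rot i a.1)
        rw [rot_add] }

/-- the set of rotation classes -/
def QQ (p : ℕ) [Fact p.Prime] : Type := Quotient (rel p)

noncomputable instance : Fintype (QQ p) := by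
  classical
  unfold QQ
  infer_instance

/-- a representative of a rotation class -/
noncomputable def rep (q : QQ p) : SS p := Quotient.out q

lemma sum_SS (hp : Odd p) (F : Finset (ZMod p) → ℂ) :
    ∑ l : SS p, F l.1 = ∑ q : QQ p, ∑ i, F (rot i (rep q).1) := by
  have hbij : Function.Bijective (fun x : QQ p × ZMod p => rotS x.2 (rep x.1)) := by
    constructor
    · rintro ⟨q, i⟩ ⟨q', j⟩ h
      simp only at h
      have h1 : q = q' := by
        rw [← Quotient.out_eq q, ← Quotient.out_eq q']
        refine Quotient.sound ⟨-j + i, Subtype.ext ?_⟩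
        have h2 : rot i (rep q).1 = rot j (rep q').1 := congrArg Subtype.val h
        change rot (-j + i) (rep q).1 = (rep q').1
        rw [rot_add, h2, ← rot_add, neg_add_cancel, rot_zero]
      subst h1
      have h2 : rot i (rep q).1 = rot j (rep q).1 := congrArg Subtype.val h
      have h3 : rot (-j + i) (rep q).1 = (rep q).1 := by
        rw [rot_add, h2, ← rot_add, neg_add_cancel, rot_zero]
      have h4 := rot_free hp (rep q) h3
      have h5 : i = j := by
        have := neg_add_eq_zero.1 h4
        exact this.symm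
      rw [h5]
    · intro l
      obtain ⟨i, hi⟩ : ∃ i, rotS i (rep (Quotient.mk (rel p) l)) = l :=
        Quotient.exact (Quotient.out_eq (Quotient.mk (rel p) l))
      exact ⟨(Quotient.mk (rel p) l, i), hi⟩
  rw [← (Equiv.ofBijective _ hbij).sum_comp, Fintype.sum_prod_type]
  rfl

/-- the sum over all even subsets -/
lemma sum_even (F : ZMod p → ℂ) :
    2 * (1 + ∑ l : SS p, ∏ k ∈ l.1, F k) = ∏ k, (1 + F k) + ∏ k, (1 + - F k) := by
  classical
  rw [prod_one_add, prod_one_add, ← sum_add_distrib]
  have h1 : ∀ s ∈ (univ : Finset (ZMod p)).powerset, (∏ k ∈ s, F k + ∏ k ∈ s, - F k) =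
      if Even s.card then 2 * ∏ k ∈ s, F k else 0 := by
    intro s _
    rw [prod_neg]
    by_cases h : Even s.card
    · rw [if_pos h, h.neg_one_pow]
      ring
    · rw [if_neg h, (Nat.not_even_iff_odd.1 h).neg_one_pow]
      ring
  rw [sum_congr rfl h1, ← sum_filter]
  have h2 : ∑ s ∈ ((univ : Finset (ZMod p)).powerset.filter fun s => Even s.card), 2 * ∏ k ∈ s, F k =
      2 + ∑ s ∈ (univ : Finset (Finset (ZMod p))).filter (fun s => Even s.card ∧ s.Nonempty),
        2 * ∏ k ∈ s, F k := by
    have h3 : ((univ : Finset (ZMod p)).powerset.filter fun s => Even s.card) =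
        insert ∅ ((univ : Finset (Finset (ZMod p))).filter (fun s => Even s.card ∧ s.Nonempty)) := by
      ext s
      simp only [mem_filter, mem_powerset, subset_univ, true_and, mem_insert, mem_univ]
      constructor
      · intro h
        rcases s.eq_empty_or_nonempty with h4 | h4
        · exact Or.inl h4
        · exact Or.inr ⟨h, h4⟩
      · rintro (h | h)
        · rw [h]
          simp
        · exact h.1
    rw [h3, sum_insert (by simp)]
    simp
  rw [h2, mul_add, mul_one, mul_sum]
  congr 1
  symm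
  have h5 : ∑ s ∈ (univ : Finset (Finset (ZMod p))).filter (fun s => Even s.card ∧ s.Nonempty),
        2 * ∏ k ∈ s, F k = ∑ x : {s : Finset (ZMod p) // Even s.card ∧ s.Nonempty}, 2 * ∏ k ∈ x.1, F k :=
    (sum_subtype _ (by intro x; simp) _)
  rw [h5]
  refine sum_congr ?_ fun _ _ => rfl
  ext x
  exact iff_of_true (mem_univ x) (mem_univ (α := SS p) x)

/-- the number of fixed points of an element of the kernel -/
lemma fix_card_zero (hp : Odd p) {g : Γ} (hg : d.ν g = 0) (c : ℂ) :
    (letI := d.act hp; open Classical in ∑ v : d.X, (if g • v = v then c else 0)) =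
      c * (1 + ∑ q : QQ p, ∑ i, ∏ k ∈ rot i (rep q).1, ((d.E k g : ℤ) : ℂ)) := by
  classical
  letI := d.act hp
  have h0 := sum_even (p := p) (fun k => ((d.E k g : ℤ) : ℂ))
  rw [sum_SS hp (fun l => ∏ k ∈ l, ((d.E k g : ℤ) : ℂ))] at h0
  have hcard := d.card_X hp
  by_cases hconst : ∀ i, d.E i g = d.T g
  · have h1 : ∀ v : d.X, g • v = v := fun v => (d.fix_iff_zero hp hg v).2 hconst
    rw [sum_congr rfl fun v _ => if_pos (h1 v), sum_const, card_univ, nsmul_eq_mul]
    have h2 : ∏ k : ZMod p, (1 + ((d.E k g : ℤ) : ℂ)) + ∏ k : ZMod p, (1 + - ((d.E k g : ℤ) : ℂ)) = 2 ^ p := by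
      rcases Int.units_eq_one_or (d.T g) with h3 | h3
      · have h4 : ∀ k : ZMod p, ((d.E k g : ℤ) : ℂ) = 1 := by
          intro k
          rw [hconst k, h3]
          simp
        simp only [h4]
        rw [prod_const, prod_const, card_univ, ZMod.card]
        have h5 : (1 + -1 : ℂ) = 0 := by ring
        rw [h5, zero_pow (Fact.out : p.Prime).ne_zero, add_zero]
        norm_num
      · have h4 : ∀ k : ZMod p, ((d.E k g : ℤ) : ℂ) = -1 := by
          intro k
          rw [hconst k, h3]
          simp
        simp only [h4]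
        rw [prod_const, prod_const, card_univ, ZMod.card]
        have h5 : (1 + -1 : ℂ) = 0 := by ring
        rw [h5, zero_pow (Fact.out : p.Prime).ne_zero, zero_add]
        norm_num
    rw [h2] at h0
    have h3 : (2 : ℂ) * (Fintype.card d.X : ℂ) = 2 ^ p := by exact_mod_cast hcard
    have h4 : (1 + ∑ q : QQ p, ∑ i, ∏ k ∈ rot i (rep q).1, ((d.E k g : ℤ) : ℂ)) = Fintype.card d.X := by
      have h5 : (2 : ℂ) ≠ 0 := two_ne_zero
      exact mul_left_cancel₀ h5 (h0.trans h3.symm)
    rw [h4]
    ring
  · have h1 : ∀ v : d.X, ¬ (g • v = v) := fun v h => hconst ((d.fix_iff_zero hp hg v).1 h)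
    rw [sum_congr rfl fun v _ => if_neg (h1 v), sum_const_zero]
    have h2 : ∏ k : ZMod p, (1 + ((d.E k g : ℤ) : ℂ)) + ∏ k : ZMod p, (1 + - ((d.E k g : ℤ) : ℂ)) = 0 := by
      have hT : ¬ (∀ i, d.E i g = 1) := by
        intro h3
        apply hconst
        intro i
        rw [h3 i]
        unfold T
        rw [prod_congr rfl fun i _ => (d.t_eq hg i).trans (h3 i)]
        simp
      have hT' : ¬ (∀ i, d.E i g = -1) := by
        intro h3
        apply hconst
        intro i
        rw [h3 i]
        unfold T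
        rw [prod_congr rfl fun i _ => (d.t_eq hg i).trans (h3 i), prod_const, card_univ, ZMod.card,
          two_pow hp]
      push Not at hT hT'
      obtain ⟨i, hi⟩ := hT
      obtain ⟨j, hj⟩ := hT'
      have hi' : d.E i g = -1 := (Int.units_eq_one_or _).resolve_left hi
      have hj' : d.E j g = 1 := (Int.units_eq_one_or _).resolve_right hj
      rw [prod_eq_zero (mem_univ i) (by rw [hi']; simp), prod_eq_zero (mem_univ j) (by rw [hj']; simp),
        add_zero]
    rw [h2] at h0
    have h4 : (1 + ∑ q : QQ p, ∑ i, ∏ k ∈ rot i (rep q).1, ((d.E k g : ℤ) : ℂ)) = 0 := by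
      have h5 : (2 : ℂ) ≠ 0 := two_ne_zero
      exact (mul_eq_zero.1 h0).resolve_left h5
    rw [h4, mul_zero]

/-- the number of fixed points of an element outside of the kernel -/
lemma fix_card_ne (hp : Odd p) {g : Γ} (hg : d.ν g ≠ 0) (c : ℂ) :
    (letI := d.act hp; open Classical in ∑ v : d.X, (if g • v = v then c else 0)) = c := by
  classical
  letI := d.act hp
  obtain ⟨v, hv, huniq⟩ := d.fix_unique hp hg
  rw [sum_eq_single v]
  · rw [if_pos hv]
  · intro w _ hw
    rw [if_neg]
    exact fun h => hw (huniq w h)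
  · intro h
    exact absurd (mem_univ v) h

/-- the sign character attached to a subset -/
def El (l : Finset (ZMod p)) (n : Γ) : ℤˣ := ∏ j ∈ l, d.E j n

lemma E_mul (j : ZMod p) {a b : Γ} (ha : d.ν a = 0) (hb : d.ν b = 0) :
    d.E j (a * b) = d.E j a * d.E j b := by
  unfold E
  rw [← d.he]
  · congr 1
    group
  · rw [d.hν, d.hν, d.ν_inv, ha, add_zero, neg_add_cancel]
  · rw [d.hν, d.hν, d.ν_inv, hb, add_zero, neg_add_cancel]

lemma El_mul (l : Finset (ZMod p)) {a b : Γ} (ha : d.ν a = 0) (hb : d.ν b = 0) :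
    d.El l (a * b) = d.El l a * d.El l b := by
  unfold El
  rw [← prod_mul_distrib]
  exact prod_congr rfl fun j _ => d.E_mul j ha hb

lemma El_conj (l : Finset (ZMod p)) (i : ZMod p) {n : Γ} (hn : d.ν n = 0) :
    d.El l ((d.r i)⁻¹ * n * d.r i) = ∏ k ∈ rot i l, d.E k n := by
  unfold El rot
  rw [prod_map]
  refine prod_congr rfl fun j _ => ?_
  unfold E
  have h1 : (d.r j)⁻¹ * ((d.r i)⁻¹ * n * d.r i) * d.r j = (d.r i * d.r j)⁻¹ * n * (d.r i * d.r j) := by
    group
  rw [h1]
  refine d.e_conj ?_ hn
  rw [d.hν, d.hr, d.hr, d.hr]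
  rfl

end Dat

end Pool.Agent.R386.RP
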