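import Pool.Agent.R386.RP.Ind
import Pool.Agent.R386.RP.Wr2

/-!
# Additive and inductive invariants
-/

set_option autoImplicit false
set_option linter.unusedSectionVars false

namespace Pool.Agent.R386.RP

open Finset

variable {G : Type} [Group G] [TopologicalSpace G]

/-- the linear character is trivial on an open subgroup -/
def Opn {H : Subgroup G} (ψ : H →* ℂˣ) : Prop :=
  ∃ U : Subgroup G, IsOpen (U : Set G) ∧ ∀ h : H, (h : G) ∈ U → ψ h = 1

/-- virtual characters of `K`: integral combinations of characters induced from linear characters of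
open subgroups (Brauer) -/
def RR (K : Subgroup G) : AddSubgroup (G → ℂ) :=
  AddSubgroup.closure {f | ∃ (H : Subgroup G) (ψ : H →* ℂˣ), IsOpen (H : Set G) ∧ H ≤ K ∧ Opn ψ ∧
    f = ind H K (ex ψ)}

/-- an additive and inductive invariant -/
structure Inv (G : Type) [Group G] [TopologicalSpace G] (X : Type) [CommGroup X] where
  u : Subgroup G → (G → ℂ) → X
  add : ∀ K : Subgroup G, IsOpen (K : Set G) → ∀ a ∈ RR K, ∀ b ∈ RR K, u K (a + b) = u K a * u K b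
  ind' : ∀ (H K : Subgroup G) (ψ : H →* ℂˣ), IsOpen (H : Set G) → H ≤ K → Opn ψ →
    u K (ind H K (ex ψ)) = u H (ex ψ)

lemma mem_RR_ind {H K : Subgroup G} {ψ : H →* ℂˣ} (hH : IsOpen (H : Set G)) (hHK : H ≤ K)
    (hψ : Opn ψ) : ind H K (ex ψ) ∈ RR K :=
  AddSubgroup.subset_closure ⟨H, ψ, hH, hHK, hψ, rfl⟩

lemma mem_RR_ex {K : Subgroup G} {ψ : K →* ℂˣ} (hK : IsOpen (K : Set G)) (hψ : Opn ψ) :
    ex ψ ∈ RR K := by
  have h := mem_RR_ind hK le_rfl hψ
  rwa [ind_self] at h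

lemma Opn.mul {H : Subgroup G} {ψ φ : H →* ℂˣ} (h1 : Opn ψ) (h2 : Opn φ) : Opn (ψ * φ) := by
  obtain ⟨U, hU, h1⟩ := h1
  obtain ⟨V, hV, h2⟩ := h2
  refine ⟨U ⊓ V, hU.inter hV, fun h hh => ?_⟩
  rw [MonoidHom.mul_apply, h1 h hh.1, h2 h hh.2, one_mul]

lemma Opn.pow {H : Subgroup G} {ψ : H →* ℂˣ} (h1 : Opn ψ) (n : ℕ) : Opn (ψ ^ n) := by
  obtain ⟨U, hU, h1⟩ := h1
  refine ⟨U, hU, fun h hh => ?_⟩
  rw [MonoidHom.pow_apply, h1 h hh, one_pow]

lemma Opn.rs {K : Subgroup G} {ψ : K →* ℂˣ} (h1 : Opn ψ) (H : Subgroup G) (h : H ≤ K) :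
    Opn (rs H h ψ) := by
  obtain ⟨U, hU, h1⟩ := h1
  exact ⟨U, hU, fun x hx => h1 (Subgroup.inclusion h x) hx⟩

lemma Opn.one {H : Subgroup G} : Opn (1 : H →* ℂˣ) := ⟨⊤, isOpen_univ, fun _ _ => rfl⟩

lemma rs_mul {K : Subgroup G} (H : Subgroup G) (h : H ≤ K) (ψ φ : K →* ℂˣ) :
    rs H h (ψ * φ) = rs H h ψ * rs H h φ := rfl

lemma rs_pow {K : Subgroup G} (H : Subgroup G) (h : H ≤ K) (ψ : K →* ℂˣ) (n : ℕ) :
    rs H h (ψ ^ n) = rs H h ψ ^ n := rfl

lemma rs_apply {K : Subgroup G} (H : Subgroup G) (h : H ≤ K) (ψ : K →* ℂˣ) {g : G} (hg : g ∈ H) :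
    rs H h ψ ⟨g, hg⟩ = ψ ⟨g, h hg⟩ := rfl

section

variable {X : Type} [CommGroup X] (I : Inv G X)

lemma Inv.u_zero (K : Subgroup G) (hK : IsOpen (K : Set G)) : I.u K 0 = 1 := by
  have h := I.add K hK 0 (zero_mem _) 0 (zero_mem _)
  rw [add_zero] at h
  exact (mul_eq_left.1 h.symm)

lemma Inv.u_sum {ι : Type} (s : Finset ι) (K : Subgroup G) (hK : IsOpen (K : Set G)) (f : ι → G → ℂ)
    (hf : ∀ i ∈ s, f i ∈ RR K) : I.u K (∑ i ∈ s, f i) = ∏ i ∈ s, I.u K (f i) := by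
  classical
  induction s using Finset.induction_on with
  | empty => rw [sum_empty, prod_empty, I.u_zero K hK]
  | insert a s ha ih =>
    have h1 : ∀ i ∈ s, f i ∈ RR K := fun i hi => hf i (mem_insert_of_mem hi)
    rw [sum_insert ha, prod_insert ha, I.add K hK _ (hf a (mem_insert_self _ _)) _ (sum_mem h1), ih h1]

end

section perm

variable {K : Subgroup G} {Y : Type} [Fintype Y] [MulAction K Y]

variable [IsTopologicalGroup G]

lemma isOpen_stb (hK : IsOpen (K : Set G)) {U : Subgroup G} (hU : IsOpen (U : Set G))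
    (hact : ∀ k : K, (k : G) ∈ U → ∀ y : Y, k • y = y) (y : Y) :
    IsOpen ((stb (K := K) y : Subgroup G) : Set G) := by
  refine Subgroup.isOpen_mono (H₁ := K ⊓ U) ?_ (hK.inter hU)
  intro g hg
  exact mem_stb.2 ⟨hg.1, hact ⟨g, hg.1⟩ hg.2 y⟩

variable {X : Type} [CommGroup X] (I : Inv G X)

open Classical in
theorem u_permf (hK : IsOpen (K : Set G)) {U : Subgroup G} (hU : IsOpen (U : Set G))
    (hact : ∀ k : K, (k : G) ∈ U → ∀ y : Y, k • y = y) {ψ : K →* ℂˣ} (hψ : Opn ψ) :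
    permf Y ψ ∈ RR K ∧ I.u K (permf Y ψ) = ∏ ω : Quotient (MulAction.orbitRel K Y),
      I.u (stb (K := K) ω.out) (ex (rs _ (stb_le ω.out) ψ)) := by
  have h1 : ∀ ω ∈ (univ : Finset (Quotient (MulAction.orbitRel K Y))),
      ind (stb (K := K) ω.out) K (ex (rs _ (stb_le ω.out) ψ)) ∈ RR K := fun ω _ =>
    mem_RR_ind (isOpen_stb hK hU hact _) (stb_le _) (hψ.rs _ _)
  rw [permf_eq]
  refine ⟨sum_mem h1, ?_⟩
  rw [I.u_sum _ K hK _ h1]
  exact prod_congr rfl fun ω _ => I.ind' _ K _ (isOpen_stb hK hU hact _) (stb_le _) (hψ.rs _ _)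

end perm

section two

variable {K : Subgroup G}

/-- the kernel of a linear character as a subgroup of `G` -/
def kerG (η : K →* ℂˣ) : Subgroup G := η.ker.map K.subtype

lemma mem_kerG {η : K →* ℂˣ} {g : G} : g ∈ kerG η ↔ ∃ h : g ∈ K, η ⟨g, h⟩ = 1 := by
  unfold kerG
  rw [Subgroup.mem_map]
  constructor
  · rintro ⟨k, hk, rfl⟩
    exact ⟨k.2, hk⟩
  · rintro ⟨h, hx⟩
    exact ⟨⟨g, h⟩, hx, rfl⟩

lemma kerG_le (η : K →* ℂˣ) : kerG η ≤ K := fun _ hg => (mem_kerG.1 hg).1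

lemma isOpen_kerG [IsTopologicalGroup G] (hK : IsOpen (K : Set G)) {η : K →* ℂˣ} (hη : Opn η) :
    IsOpen ((kerG η : Subgroup G) : Set G) := by
  obtain ⟨U, hU, h⟩ := hη
  refine Subgroup.isOpen_mono (H₁ := K ⊓ U) ?_ (hK.inter hU)
  intro g hg
  exact mem_kerG.2 ⟨hg.1, h ⟨g, hg.1⟩ hg.2⟩

theorem index_two (ψ η : K →* ℂˣ) (hη : ∀ k, η k = 1 ∨ η k = -1) (x0 : K) (hx0 : η x0 = -1) :
    ind (kerG η) K (ex (rs _ (kerG_le η) ψ)) = ex ψ + ex (ψ * η) := by
  classical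
  let r : Bool → K := fun b => if b then x0 else 1
  have hne : (1 : ℂˣ) ≠ -1 := by
    intro h
    have h2 : (1 : ℂ) = -1 := by simpa using congrArg Units.val h
    norm_num at h2
  have hr : Function.Bijective (fun i => (r i : K ⧸ (kerG η).subgroupOf K)) := by
    constructor
    · intro a b hab
      by_contra hne'
      have h1 := QuotientGroup.eq.1 hab
      have h2 : η ((r a)⁻¹ * r b) = 1 := (mem_kerG.1 (Subgroup.mem_subgroupOf.1 h1)).2
      rw [map_mul, map_inv, inv_mul_eq_one] at h2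
      rcases a with _ | _ <;> rcases b with _ | _
      · exact hne' rfl
      · simp only [r, if_true] at h2
        simp [hx0] at h2
      · simp only [r, if_true] at h2
        simp [hx0] at h2
      · exact hne' rfl
    · intro x
      induction x using QuotientGroup.induction_on with
      | H z =>
        rcases hη z with hz | hz
        · refine ⟨false, ?_⟩
          rw [QuotientGroup.eq]
          refine Subgroup.mem_subgroupOf.2 (mem_kerG.2 ⟨((r false)⁻¹ * z).2, ?_⟩)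
          change η ((r false)⁻¹ * z) = 1
          simp [r, hz]
        · refine ⟨true, ?_⟩
          rw [QuotientGroup.eq]
          refine Subgroup.mem_subgroupOf.2 (mem_kerG.2 ⟨((r true)⁻¹ * z).2, ?_⟩)
          change η ((r true)⁻¹ * z) = 1
          simp [r, hz, hx0]
  funext g
  rw [Pi.add_apply]
  by_cases hg : g ∈ K
  · rw [ind_eq r hr _ (fun h hh g => ex_conj _ hh g), Fintype.sum_bool, ex_of_mem ψ hg,
      ex_of_mem (ψ * η) hg, MonoidHom.mul_apply]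
    have key : ∀ k : K, ex (rs _ (kerG_le η) ψ) ((k : G)⁻¹ * g * (k : G)) =
        if η ⟨g, hg⟩ = 1 then (ψ ⟨g, hg⟩ : ℂ) else 0 := by
      intro k
      have hk : (k : G)⁻¹ * g * (k : G) ∈ K := K.mul_mem (K.mul_mem (K.inv_mem k.2) hg) k.2
      have h3 : (⟨(k : G)⁻¹ * g * (k : G), hk⟩ : K) = k⁻¹ * (⟨g, hg⟩ : K) * k := rfl
      have h4 : ∀ θ : K →* ℂˣ, θ ⟨(k : G)⁻¹ * g * (k : G), hk⟩ = θ ⟨g, hg⟩ := by
        intro θ
        rw [h3, map_mul, map_mul, map_inv, mul_comm (θ k)⁻¹, inv_mul_cancel_right]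
      by_cases h1 : η ⟨g, hg⟩ = 1
      · rw [if_pos h1]
        have h5 : (k : G)⁻¹ * g * (k : G) ∈ kerG η := mem_kerG.2 ⟨hk, by rw [h4, h1]⟩
        rw [ex_of_mem _ h5, rs_apply, h4]
      · rw [if_neg h1]
        refine ex_of_not_mem _ fun h5 => h1 ?_
        rw [← h4 η]
        exact (mem_kerG.1 h5).2
    rw [key, key]
    rcases hη ⟨g, hg⟩ with h1 | h1
    · rw [if_pos h1, h1]
      simp
    · rw [if_neg (by rw [h1]; exact fun h => hne h.symm), h1]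
      simp
  · rw [ind_of_not_mem (kerG_le η) _ hg, ex_of_not_mem ψ hg, ex_of_not_mem _ hg, add_zero]

variable {X : Type} [CommGroup X] (I : Inv G X)

theorem u_two [IsTopologicalGroup G] (hK : IsOpen (K : Set G)) {ψ η : K →* ℂˣ} (hψ : Opn ψ) (hη : Opn η)
    (hη2 : ∀ k, η k = 1 ∨ η k = -1) (x0 : K) (hx0 : η x0 = -1) :
    I.u (kerG η) (ex (rs _ (kerG_le η) ψ)) = I.u K (ex ψ) * I.u K (ex (ψ * η)) := by
  rw [← I.ind' (kerG η) K _ (isOpen_kerG hK hη) (kerG_le η) (hψ.rs _ _), index_two ψ η hη2 x0 hx0]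
  exact I.add K hK _ (mem_RR_ex hK hψ) _ (mem_RR_ex hK (hψ.mul hη))

end two

section pp

variable {K : Subgroup G} {p : ℕ} [Fact p.Prime] (d : Dat K p)

/-- the kernel of `ν` as a subgroup of `G` -/
def kerS : Subgroup G where
  carrier := {g | ∃ h : g ∈ K, d.ν ⟨g, h⟩ = 0}
  mul_mem' := by
    rintro a b ⟨ha, ha'⟩ ⟨hb, hb'⟩
    refine ⟨K.mul_mem ha hb, ?_⟩
    have := d.hν ⟨a, ha⟩ ⟨b, hb⟩
    rw [ha', hb', add_zero] at this
    exact this
  one_mem' := ⟨K.one_mem, d.ν_one⟩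
  inv_mem' := by
    rintro a ⟨ha, ha'⟩
    refine ⟨K.inv_mem ha, ?_⟩
    have := d.ν_inv ⟨a, ha⟩
    rw [ha', neg_zero] at this
    exact this

lemma mem_kerS {g : G} : g ∈ kerS d ↔ ∃ h : g ∈ K, d.ν ⟨g, h⟩ = 0 := Iff.rfl

lemma kerS_le : kerS d ≤ K := fun _ hg => hg.1

/-- the sign character attached to a subset, as a linear character of the kernel -/
def ell (l : Finset (ZMod p)) : kerS d →* ℂˣ where
  toFun n := Units.map (Int.castRingHom ℂ : ℤ →* ℂ) (d.El l ⟨n, n.2.1⟩)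
  map_one' := by
    have h := d.El_mul l (a := 1) (b := 1) d.ν_one d.ν_one
    rw [one_mul] at h
    have h2 : d.El l 1 = 1 := mul_eq_left.1 h.symm
    change Units.map (Int.castRingHom ℂ : ℤ →* ℂ) (d.El l 1) = 1
    rw [h2, map_one]
  map_mul' a b := by
    have h := d.El_mul l (a := ⟨a, a.2.1⟩) (b := ⟨b, b.2.1⟩) a.2.2 b.2.2
    change Units.map (Int.castRingHom ℂ : ℤ →* ℂ) (d.El l (⟨a, a.2.1⟩ * ⟨b, b.2.1⟩)) = _
    rw [h, map_mul]

lemma ell_sq (l : Finset (ZMod p)) : ell d l ^ 2 = 1 := by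
  ext n
  change (((Units.map (Int.castRingHom ℂ : ℤ →* ℂ) (d.El l ⟨n, n.2.1⟩)) ^ 2 : ℂˣ) : ℂ) = 1
  rw [← map_pow, Int.units_sq, map_one, Units.val_one]

theorem index_p (hp : Odd p) (ψ : K →* ℂˣ) :
    (letI := d.act hp; permf d.X ψ) = ex ψ +
      ∑ q : Dat.QQ p, ind (kerS d) K (ex (ell d (Dat.rep q).1 * rs _ (kerS_le d) ψ)) := by
  classical
  letI := d.act hp
  have hr : Function.Bijective (fun i => (d.r i : K ⧸ (kerS d).subgroupOf K)) := by
    constructor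
    · intro a b hab
      have h1 := QuotientGroup.eq.1 hab
      have h2 : d.ν ((d.r a)⁻¹ * d.r b) = 0 := (Subgroup.mem_subgroupOf.1 h1).2
      rw [d.hν, d.ν_inv, d.hr, d.hr] at h2
      exact neg_add_eq_zero.1 h2
    · intro x
      induction x using QuotientGroup.induction_on with
      | H z =>
        refine ⟨d.ν z, ?_⟩
        rw [QuotientGroup.eq]
        refine Subgroup.mem_subgroupOf.2 ⟨((d.r (d.ν z))⁻¹ * z).2, ?_⟩
        change d.ν ((d.r (d.ν z))⁻¹ * z) = 0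
        rw [d.hν, d.ν_inv, d.hr, neg_add_cancel]
  funext g
  rw [Pi.add_apply, Finset.sum_apply]
  by_cases hg : g ∈ K
  · have hL : permf d.X ψ g = ∑ v : d.X, (if (⟨g, hg⟩ : K) • v = v then (ψ ⟨g, hg⟩ : ℂ) else 0) := by
      unfold permf
      rw [dif_pos hg]
    rw [hL, ex_of_mem ψ hg]
    have hind : ∀ q : Dat.QQ p, ind (kerS d) K (ex (ell d (Dat.rep q).1 * rs _ (kerS_le d) ψ)) g =
        ∑ i, ex (ell d (Dat.rep q).1 * rs _ (kerS_le d) ψ) ((d.r i : G)⁻¹ * g * (d.r i : G)) :=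
      fun q => ind_eq d.r hr _ (fun h hh g => ex_conj _ hh g) g
    have hν : ∀ i, ∀ hk : (d.r i : G)⁻¹ * g * (d.r i : G) ∈ K,
        d.ν ⟨(d.r i : G)⁻¹ * g * (d.r i : G), hk⟩ = d.ν ⟨g, hg⟩ := by
      intro i hk
      have h3 : (⟨(d.r i : G)⁻¹ * g * (d.r i : G), hk⟩ : K) = (d.r i)⁻¹ * (⟨g, hg⟩ : K) * d.r i := rfl
      rw [h3, d.hν, d.hν, d.ν_inv]
      ring
    by_cases h0 : d.ν ⟨g, hg⟩ = 0
    · rw [d.fix_card_zero hp h0, mul_add, mul_one, mul_sum]
      congr 1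
      refine sum_congr rfl fun q _ => ?_
      rw [hind q, mul_sum]
      refine sum_congr rfl fun i _ => ?_
      have hk : (d.r i : G)⁻¹ * g * (d.r i : G) ∈ K := K.mul_mem (K.mul_mem (K.inv_mem (d.r i).2) hg) (d.r i).2
      have h3 : (⟨(d.r i : G)⁻¹ * g * (d.r i : G), hk⟩ : K) = (d.r i)⁻¹ * (⟨g, hg⟩ : K) * d.r i := rfl
      have h5 : (d.r i : G)⁻¹ * g * (d.r i : G) ∈ kerS d := ⟨hk, by rw [hν, h0]⟩
      rw [ex_of_mem _ h5, MonoidHom.mul_apply, rs_apply]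
      have h6 : ψ ⟨(d.r i : G)⁻¹ * g * (d.r i : G), hk⟩ = ψ ⟨g, hg⟩ := by
        rw [h3, map_mul, map_mul, map_inv, mul_comm (ψ (d.r i))⁻¹, inv_mul_cancel_right]
      rw [h6, Units.val_mul, mul_comm]
      congr 1
      change _ = (((Units.map (Int.castRingHom ℂ : ℤ →* ℂ)
        (d.El (Dat.rep q).1 ⟨(d.r i : G)⁻¹ * g * (d.r i : G), hk⟩)) : ℂˣ) : ℂ)
      rw [h3, d.El_conj _ _ h0]
      simp
    · rw [d.fix_card_ne hp h0]
      symm
      rw [add_eq_left]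
      refine sum_eq_zero fun q _ => ?_
      rw [hind q]
      refine sum_eq_zero fun i _ => ex_of_not_mem _ fun h5 => h0 ?_
      rw [← hν i h5.1]
      exact h5.2
  · have hL : permf d.X ψ g = 0 := by
      unfold permf
      rw [dif_neg hg]
    rw [hL, ex_of_not_mem ψ hg, zero_add]
    symm
    exact sum_eq_zero fun q _ => ind_of_not_mem (kerS_le d) _ hg

end pp

end Pool.Agent.R386.RP
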