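import Pool.Agent.R386.RP.Inv

/-!
# Real places
-/

set_option autoImplicit false
set_option linter.unusedSectionVars false

namespace Pool.Agent.R386.RP

open Finset

/-- a topological group with a set of complex conjugations, with self-centralizing elements and
weak approximation for quadratic characters -/
structure RG (G : Type) [Group G] [TopologicalSpace G] where
  C : Set G
  conj : ∀ c ∈ C, ∀ g, g * c * g⁻¹ ∈ C
  sq : ∀ c ∈ C, c * c = 1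
  cent : ∀ c ∈ C, ∀ g, g * c = c * g → g = 1 ∨ g = c
  wa : ∀ N : Subgroup G, IsOpen (N : Set G) → ∀ T : Set G, (∀ c ∈ T, ∀ n ∈ N, n * c * n⁻¹ ∈ T) →
    ∃ ε : N →* ℂˣ, Opn ε ∧ (∀ n, ε n = 1 ∨ ε n = -1) ∧
      ∀ c ∈ C, ∀ h : c ∈ N, (ε ⟨c, h⟩ = -1 ↔ c ∈ T)

lemma one_ne : (1 : ℂˣ) ≠ -1 := by
  intro h
  have h2 : (1 : ℂ) = -1 := by simpa using congrArg Units.val h
  norm_num at h2

lemma pm_of_sq {z : ℂˣ} (h : z * z = 1) : z = 1 ∨ z = -1 := by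
  have h2 : (z : ℂ) * z = 1 := by
    have h3 := congrArg Units.val h
    rwa [Units.val_mul, Units.val_one] at h3
  rcases mul_self_eq_one_iff.1 h2 with h3 | h3
  · exact Or.inl (Units.ext h3)
  · exact Or.inr (Units.ext (by rw [h3]; simp))

section nu

variable {Γ : Type} [Group Γ]

lemma exists_nu (χ : Γ →* ℂˣ) {p : ℕ} [Fact p.Prime] (hχ : χ ^ p = 1) (x0 : Γ) (hx0 : χ x0 ≠ 1) :
    ∃ (ν : Γ → ZMod p) (r : ZMod p → Γ), (∀ a b, ν (a * b) = ν a + ν b) ∧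
      (∀ k, ν k = 0 ↔ χ k = 1) ∧ ∀ i, ν (r i) = i := by
  have hp : ∀ k, χ k ^ p = 1 := fun k => by rw [← MonoidHom.pow_apply, hχ, MonoidHom.one_apply]
  have hord : orderOf (χ x0) = p := orderOf_eq_prime (hp x0) hx0
  have hprim : IsPrimitiveRoot (χ x0) p := by
    rw [← hord]
    exact IsPrimitiveRoot.orderOf _
  have hex : ∀ k, ∃ i : ℕ, χ x0 ^ i = χ k := by
    intro k
    have h1 : IsPrimitiveRoot ((χ x0 : ℂˣ) : ℂ) p := IsPrimitiveRoot.coe_units_iff.2 hprim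
    obtain ⟨i, _, hi⟩ := h1.eq_pow_of_pow_eq_one (ξ := (χ k : ℂ)) (by
      have := congrArg Units.val (hp k)
      simpa using this)
    exact ⟨i, Units.ext (by rw [Units.val_pow_eq_pow_val, hi])⟩
  choose n hn using hex
  have hiff : ∀ a b : ℕ, χ x0 ^ a = χ x0 ^ b ↔ (a : ZMod p) = (b : ZMod p) := by
    intro a b
    rw [pow_eq_pow_iff_modEq, hord, ZMod.natCast_eq_natCast_iff]
  refine ⟨fun k => (n k : ZMod p), fun i => x0 ^ i.val, ?_, ?_, ?_⟩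
  · intro a b
    have h1 : χ x0 ^ n (a * b) = χ x0 ^ (n a + n b) := by
      rw [hn, map_mul, pow_add, hn, hn]
    have h2 := (hiff _ _).1 h1
    change (n (a * b) : ZMod p) = (n a : ZMod p) + (n b : ZMod p)
    rw [h2]
    push_cast
    rfl
  · intro k
    change (n k : ZMod p) = 0 ↔ _
    rw [← hn k]
    have h1 := hiff (n k) 0
    rw [pow_zero, Nat.cast_zero] at h1
    exact h1.symm
  · intro i
    have h1 : χ x0 ^ n (x0 ^ i.val) = χ x0 ^ i.val := by rw [hn, map_pow]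
    have h2 := (hiff _ _).1 h1
    change (n (x0 ^ i.val) : ZMod p) = i
    rw [h2]
    exact ZMod.natCast_zmod_val i

end nu

variable {G : Type} [Group G] [TopologicalSpace G] (R : RG G)

/-- even at all real places -/
def RG.Even (R : RG G) {K : Subgroup G} (φ : K →* ℂˣ) : Prop := ∀ c ∈ R.C, ∀ h : c ∈ K, φ ⟨c, h⟩ = 1

/-- odd at all real places -/
def RG.Odd (R : RG G) {K : Subgroup G} (φ : K →* ℂˣ) : Prop := ∀ c ∈ R.C, ∀ h : c ∈ K, φ ⟨c, h⟩ = -1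

/-- no real place -/
def RG.Av (R : RG G) (K : Subgroup G) : Prop := ∀ c ∈ R.C, c ∉ K

lemma RG.pm (R : RG G) {K : Subgroup G} (ψ : K →* ℂˣ) {c : G} (hc : c ∈ R.C) (h : c ∈ K) :
    ψ ⟨c, h⟩ = 1 ∨ ψ ⟨c, h⟩ = -1 := by
  apply pm_of_sq
  rw [← map_mul]
  have h1 : (⟨c, h⟩ : K) * ⟨c, h⟩ = 1 := Subtype.ext (R.sq c hc)
  rw [h1, map_one]

lemma RG.Even.rs {R : RG G} {K : Subgroup G} {φ : K →* ℂˣ} (hφ : R.Even φ) (H : Subgroup G)
    (h : H ≤ K) : R.Even (rs H h φ) := fun c hc h' => hφ c hc (h h')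

lemma RG.Odd.rs {R : RG G} {K : Subgroup G} {φ : K →* ℂˣ} (hφ : R.Odd φ) (H : Subgroup G)
    (h : H ≤ K) : R.Odd (rs H h φ) := fun c hc h' => hφ c hc (h h')

lemma conj_val {K : Subgroup G} (ψ : K →* ℂˣ) {c n : G} (hc : c ∈ K) (hn : n ∈ K)
    (h : n * c * n⁻¹ ∈ K) : ψ ⟨n * c * n⁻¹, h⟩ = ψ ⟨c, hc⟩ := by
  have h1 : (⟨n * c * n⁻¹, h⟩ : K) = ⟨n, hn⟩ * ⟨c, hc⟩ * (⟨n, hn⟩ : K)⁻¹ := rfl
  rw [h1, map_mul, map_mul, map_inv, mul_comm (ψ ⟨n, hn⟩), mul_inv_cancel_right]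

lemma pow_E_mul {K : Subgroup G} {ψ η : K →* ℂˣ} {E : ℕ} (hE : Even E) (hψ : ψ ^ E = 1)
    (hη : ∀ k, η k = 1 ∨ η k = -1) : (ψ * η) ^ E = 1 := by
  have h0 : ∀ k, ψ k ^ E = 1 := fun k => by rw [← MonoidHom.pow_apply, hψ, MonoidHom.one_apply]
  ext k
  rw [MonoidHom.pow_apply, MonoidHom.mul_apply, mul_pow, h0, one_mul]
  rcases hη k with h | h
  · rw [h, one_pow]
    rfl
  · rw [h, hE.neg_one_pow]
    rfl

section

variable {R} [IsTopologicalGroup G] {X : Type} [CommGroup X] (I : Inv G X)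

section first

variable {E : ℕ} (hE : Even E)

include hE

/-- reduction to characters which are odd at all real places -/
theorem odd_suffices
    (hyp : ∀ F : Subgroup G, IsOpen (F : Set G) → ∀ ψ : F →* ℂˣ, Opn ψ → ψ ^ E = 1 → R.Odd ψ →
      I.u F (ex ψ) = 1)
    {K : Subgroup G} (hK : IsOpen (K : Set G)) {ψ : K →* ℂˣ} (hψ : Opn ψ) (hψE : ψ ^ E = 1) :
    I.u K (ex ψ) = 1 := by
  obtain ⟨ε, hε, hε2, hεT⟩ := R.wa K hK {c | c ∈ R.C ∧ ∃ h : c ∈ K, ψ ⟨c, h⟩ = 1} (by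
    rintro c ⟨hc, h, h1⟩ n hn
    refine ⟨R.conj c hc n, K.mul_mem (K.mul_mem hn h) (K.inv_mem hn), ?_⟩
    rw [conj_val ψ h hn, h1])
  by_cases hx : ∃ x0, ε x0 = -1
  · obtain ⟨x0, hx0⟩ := hx
    have h1 := u_two I hK hψ hε hε2 x0 hx0
    have h2 : I.u (kerG ε) (ex (rs _ (kerG_le ε) ψ)) = 1 := by
      refine hyp _ (isOpen_kerG hK hε) _ (hψ.rs _ _) (by rw [← rs_pow, hψE]; rfl) ?_
      intro c hc h
      obtain ⟨hcK, h3⟩ := mem_kerG.1 h
      rw [rs_apply]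
      refine (R.pm ψ hc hcK).resolve_left fun h4 => ?_
      have h5 := (hεT c hc hcK).2 ⟨hc, hcK, h4⟩
      rw [h3] at h5
      exact one_ne h5
    have h3 : I.u K (ex (ψ * ε)) = 1 := by
      refine hyp K hK _ (hψ.mul hε) (pow_E_mul hE hψE hε2) ?_
      intro c hc h
      rw [MonoidHom.mul_apply]
      rcases R.pm ψ hc h with h4 | h4
      · rw [h4, (hεT c hc h).2 ⟨hc, h, h4⟩, one_mul]
      · have h5 : ε ⟨c, h⟩ ≠ -1 := by
          intro h6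
          obtain ⟨_, _, h7⟩ := (hεT c hc h).1 h6
          rw [h4] at h7
          exact one_ne h7.symm
        rw [h4, (hε2 _).resolve_right h5, mul_one]
    rw [h2, h3, mul_one] at h1
    exact h1.symm
  · refine hyp K hK ψ hψ hψE ?_
    intro c hc h
    refine (R.pm ψ hc h).resolve_left fun h4 => hx ⟨_, (hεT c hc h).2 ⟨hc, h, h4⟩⟩

/-- reduction to characters which are even at all real places -/
theorem even_suffices
    (hyp : ∀ F : Subgroup G, IsOpen (F : Set G) → ∀ ψ : F →* ℂˣ, Opn ψ → ψ ^ E = 1 → R.Even ψ →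
      I.u F (ex ψ) = 1)
    {K : Subgroup G} (hK : IsOpen (K : Set G)) {ψ : K →* ℂˣ} (hψ : Opn ψ) (hψE : ψ ^ E = 1) :
    I.u K (ex ψ) = 1 := by
  obtain ⟨ε, hε, hε2, hεT⟩ := R.wa K hK {c | c ∈ R.C ∧ ∃ h : c ∈ K, ψ ⟨c, h⟩ = -1} (by
    rintro c ⟨hc, h, h1⟩ n hn
    refine ⟨R.conj c hc n, K.mul_mem (K.mul_mem hn h) (K.inv_mem hn), ?_⟩
    rw [conj_val ψ h hn, h1])
  by_cases hx : ∃ x0, ε x0 = -1
  · obtain ⟨x0, hx0⟩ := hx
    have h1 := u_two I hK hψ hε hε2 x0 hx0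
    have h2 : I.u (kerG ε) (ex (rs _ (kerG_le ε) ψ)) = 1 := by
      refine hyp _ (isOpen_kerG hK hε) _ (hψ.rs _ _) (by rw [← rs_pow, hψE]; rfl) ?_
      intro c hc h
      obtain ⟨hcK, h3⟩ := mem_kerG.1 h
      rw [rs_apply]
      refine (R.pm ψ hc hcK).resolve_right fun h4 => ?_
      have h5 := (hεT c hc hcK).2 ⟨hc, hcK, h4⟩
      rw [h3] at h5
      exact one_ne h5
    have h3 : I.u K (ex (ψ * ε)) = 1 := by
      refine hyp K hK _ (hψ.mul hε) (pow_E_mul hE hψE hε2) ?_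
      intro c hc h
      rw [MonoidHom.mul_apply]
      rcases R.pm ψ hc h with h4 | h4
      · have h5 : ε ⟨c, h⟩ ≠ -1 := by
          intro h6
          obtain ⟨_, _, h7⟩ := (hεT c hc h).1 h6
          rw [h4] at h7
          exact one_ne h7
        rw [h4, (hε2 _).resolve_right h5, mul_one]
      · rw [h4, (hεT c hc h).2 ⟨hc, h, h4⟩, neg_mul_neg, mul_one]
    rw [h2, h3, mul_one] at h1
    exact h1.symm
  · refine hyp K hK ψ hψ hψE ?_
    intro c hc h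
    refine (R.pm ψ hc h).resolve_right fun h4 => hx ⟨_, (hεT c hc h).2 ⟨hc, h, h4⟩⟩

end first

section second

variable {E : ℕ} (hE : Even E)
  (hyp : ∀ F : Subgroup G, IsOpen (F : Set G) → R.Av F → ∀ ψ : F →* ℂˣ, Opn ψ → ψ ^ E = 1 →
    I.u F (ex ψ) = 1)

include hE hyp

lemma lemA0 {K : Subgroup G} (hK : IsOpen (K : Set G)) {ψ δ : K →* ℂˣ} (hψ : Opn ψ) (hψE : ψ ^ E = 1)
    (hδ : Opn δ) (hδ2 : ∀ k, δ k = 1 ∨ δ k = -1) (hodd : R.Odd δ) :
    I.u K (ex ψ) * I.u K (ex (ψ * δ)) = 1 := by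
  by_cases hx : ∃ x0, δ x0 = -1
  · obtain ⟨x0, hx0⟩ := hx
    rw [← u_two I hK hψ hδ hδ2 x0 hx0]
    refine hyp _ (isOpen_kerG hK hδ) ?_ _ (hψ.rs _ _) (by rw [← rs_pow, hψE]; rfl)
    intro c hc h
    obtain ⟨hcK, h3⟩ := mem_kerG.1 h
    rw [hodd c hc hcK] at h3
    exact one_ne h3.symm
  · have hav : R.Av K := fun c hc h => hx ⟨_, hodd c hc h⟩
    rw [hyp K hK hav ψ hψ hψE, hyp K hK hav _ (hψ.mul hδ) (pow_E_mul hE hψE hδ2), mul_one]

lemma lemA {K : Subgroup G} (hK : IsOpen (K : Set G)) {ψ η : K →* ℂˣ} (hψ : Opn ψ) (hψE : ψ ^ E = 1)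
    (hη : Opn η) (hη2 : ∀ k, η k = 1 ∨ η k = -1) (heven : R.Even η) :
    I.u K (ex (ψ * η)) = I.u K (ex ψ) := by
  obtain ⟨δ, hδ, hδ2, hδT⟩ := R.wa K hK R.C (fun c hc n _ => R.conj c hc n)
  have hodd : R.Odd δ := fun c hc h => (hδT c hc h).2 hc
  have h1 := lemA0 I hE hyp hK hψ hψE hδ hδ2 hodd
  have h2 := lemA0 I hE hyp hK (ψ := ψ * η) (δ := η * δ) (hψ.mul hη) (pow_E_mul hE hψE hη2)
    (hη.mul hδ) (by
      intro k
      rw [MonoidHom.mul_apply]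
      rcases hη2 k with h | h <;> rcases hδ2 k with h' | h' <;> rw [h, h'] <;> simp) (by
      intro c hc h
      rw [MonoidHom.mul_apply, heven c hc h, hodd c hc h, one_mul])
  have h3 : ψ * η * (η * δ) = ψ * δ := by
    ext k
    simp only [MonoidHom.mul_apply]
    rcases hη2 k with h | h <;> rw [h] <;> simp
  rw [h3] at h2
  exact mul_right_cancel (h2.trans h1.symm)

end second

end

end Pool.Agent.R386.RP
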