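import Pool.Agent.R386.RP.Main

/-!
# Real places: characters of odd order
-/

set_option autoImplicit false
set_option linter.unusedSectionVars false

namespace Pool.Agent.R386.RP

open Finset

variable {G : Type} [Group G] [TopologicalSpace G] [IsTopologicalGroup G] [CompactSpace G]

/-- an open subgroup contains an open normal subgroup -/
lemma exists_normal {U : Subgroup G} (hU : IsOpen (U : Set G)) :
    ∃ V : Subgroup G, V.Normal ∧ IsOpen (V : Set G) ∧ V ≤ U := by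
  refine ⟨U.normalCore, inferInstance, ?_, U.normalCore_le⟩
  have hfin : Finite (G ⧸ U) := Subgroup.quotient_finite_of_isOpen U hU
  have hfi : U.FiniteIndex := Subgroup.finiteIndex_of_finite_quotient
  have hcl : IsClosed (U.normalCore : Set G) := U.normalCore_isClosed (U.isClosed_of_isOpen hU)
  exact Subgroup.isOpen_of_isClosed_of_finiteIndex _ hcl

variable {R : RG G}

/-- the classes of complex conjugations of `K` under conjugation by `K` -/
def crel (R : RG G) (K : Subgroup G) : Setoid {c : G // c ∈ R.C ∧ c ∈ K} where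
  r a b := ∃ k ∈ K, k * a.1 * k⁻¹ = b.1
  iseqv :=
    { refl := fun a => ⟨1, K.one_mem, by simp⟩
      symm := by
        rintro a b ⟨k, hk, h⟩
        refine ⟨k⁻¹, K.inv_mem hk, ?_⟩
        rw [← h]
        group
      trans := by
        rintro a b c ⟨k, hk, h⟩ ⟨l, hl, h'⟩
        refine ⟨l * k, K.mul_mem hl hk, ?_⟩
        rw [← h', ← h]
        group }

/-- choice of a representative -/
noncomputable def crep (R : RG G) (K : Subgroup G) (c : {c : G // c ∈ R.C ∧ c ∈ K}) :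
    {c : G // c ∈ R.C ∧ c ∈ K} := (Quotient.mk (crel R K) c).out

lemma crep_spec (K : Subgroup G) (c : {c : G // c ∈ R.C ∧ c ∈ K}) :
    ∃ k ∈ K, k * (crep R K c).1 * k⁻¹ = c.1 :=
  Quotient.exact (Quotient.out_eq (Quotient.mk (crel R K) c))

lemma crep_eq (K : Subgroup G) {a b : {c : G // c ∈ R.C ∧ c ∈ K}} (h : ∃ k ∈ K, k * a.1 * k⁻¹ = b.1) :
    crep R K a = crep R K b := by
  unfold crep
  rw [Quotient.sound (s := crel R K) h]

/-- a set of complex conjugations containing one class over each class of `K` -/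
lemma exists_T {K : Subgroup G} {p : ℕ} (ν : K → ZMod p) (r : ZMod p → K)
    (hν : ∀ a b, ν (a * b) = ν a + ν b) (hr : ∀ i, ν (r i) = i) (N : Subgroup G)
    (hN : ∀ g, g ∈ N ↔ ∃ h : g ∈ K, ν ⟨g, h⟩ = 0) (hC : ∀ c ∈ R.C, ∀ h : c ∈ K, ν ⟨c, h⟩ = 0) :
    ∃ T : Set G, (∀ c ∈ T, ∀ n ∈ N, n * c * n⁻¹ ∈ T) ∧
      ∀ c ∈ R.C, c ∈ K → ∃! i, (r i : G)⁻¹ * c * (r i : G) ∈ T := by
  have ν1 : ν 1 = 0 := by
    have h := hν 1 1
    rw [one_mul] at h
    simpa using h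
  have νinv : ∀ a, ν a⁻¹ = - ν a := by
    intro a
    have h := hν a⁻¹ a
    rw [inv_mul_cancel, ν1] at h
    exact (neg_eq_of_add_eq_zero_left h.symm).symm
  refine ⟨{t | ∃ (c : {c : G // c ∈ R.C ∧ c ∈ K}), ∃ n ∈ N, t = n * (crep R K c).1 * n⁻¹}, ?_, ?_⟩
  · rintro t ⟨c, n, hn, rfl⟩ m hm
    refine ⟨c, m * n, N.mul_mem hm hn, ?_⟩
    group
  · intro c hc hcK
    obtain ⟨k, hk, hkc⟩ := crep_spec (R := R) K ⟨c, hc, hcK⟩
    refine ⟨ν ⟨k, hk⟩, ?_, ?_⟩
    · refine ⟨⟨c, hc, hcK⟩, (r (ν ⟨k, hk⟩) : G)⁻¹ * k, ?_, ?_⟩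
      · rw [hN]
        refine ⟨K.mul_mem (K.inv_mem (r _).2) hk, ?_⟩
        have h1 : (⟨(r (ν ⟨k, hk⟩) : G)⁻¹ * k, K.mul_mem (K.inv_mem (r _).2) hk⟩ : K) =
          (r (ν ⟨k, hk⟩))⁻¹ * ⟨k, hk⟩ := rfl
        rw [h1, hν, νinv, hr, neg_add_cancel]
      · change _ = _
        have h2 : c = k * (crep R K ⟨c, hc, hcK⟩).1 * k⁻¹ := hkc.symm
        calc (r (ν ⟨k, hk⟩) : G)⁻¹ * c * (r (ν ⟨k, hk⟩) : G)
            = (r (ν ⟨k, hk⟩) : G)⁻¹ * (k * (crep R K ⟨c, hc, hcK⟩).1 * k⁻¹) * (r (ν ⟨k, hk⟩) : G) := by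
              rw [hkc]
          _ = _ := by group
    · rintro i ⟨c0, n, hn, hi⟩
      obtain ⟨hnK, hn0⟩ := (hN n).1 hn
      -- `c = (r i * n) ρ (r i * n)⁻¹`
      have h1 : (r i * ⟨n, hnK⟩ : K) * (crep R K c0).1 * ((r i * ⟨n, hnK⟩ : K) : G)⁻¹ = c := by
        have h2 : (r i : G) * ((r i : G)⁻¹ * c * (r i : G)) * (r i : G)⁻¹ = c := by group
        rw [hi] at h2
        rw [← h2]
        push_cast
        group
      have h3 : crep R K c0 = crep R K ⟨c, hc, hcK⟩ := by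
        have h4 : crep R K (crep R K c0) = crep R K ⟨c, hc, hcK⟩ :=
          crep_eq K ⟨_, (r i * ⟨n, hnK⟩ : K).2, h1⟩
        rw [← h4]
        obtain ⟨l, hl, hlc⟩ := crep_spec (R := R) K c0
        exact (crep_eq K ⟨l, hl, hlc⟩).symm
      rw [h3] at h1
      set ρ := crep R K ⟨c, hc, hcK⟩ with hρ
      set a : K := r i * ⟨n, hnK⟩ with ha
      have h5 : (a : G) * ρ.1 * (a : G)⁻¹ = k * ρ.1 * k⁻¹ := h1.trans hkc.symm
      have h6 : ((a : G)⁻¹ * k) * ρ.1 = ρ.1 * ((a : G)⁻¹ * k) := by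
        have h7 : (a : G)⁻¹ * (k * ρ.1 * k⁻¹) * k = (a : G)⁻¹ * ((a : G) * ρ.1 * (a : G)⁻¹) * k := by
          rw [h5]
        calc ((a : G)⁻¹ * k) * ρ.1 = (a : G)⁻¹ * (k * ρ.1 * k⁻¹) * k := by group
          _ = (a : G)⁻¹ * ((a : G) * ρ.1 * (a : G)⁻¹) * k := h7
          _ = _ := by group
      have h8 : ν (a⁻¹ * ⟨k, hk⟩) = 0 := by
        rcases R.cent ρ.1 ρ.2.1 _ h6 with h9 | h9
        · have h10 : a⁻¹ * (⟨k, hk⟩ : K) = 1 := Subtype.ext h9
          rw [h10, ν1]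
        · have h10 : a⁻¹ * (⟨k, hk⟩ : K) = ⟨ρ.1, ρ.2.2⟩ := Subtype.ext h9
          rw [h10, hC _ ρ.2.1]
      rw [hν, νinv, ha, hν, hr, hn0, add_zero] at h8
      exact neg_add_eq_zero.1 h8

variable {X : Type} [CommGroup X] (I : Inv G X) {E : ℕ} (hE : Even E)
  (hyp : ∀ F : Subgroup G, IsOpen (F : Set G) → R.Av F → ∀ ψ : F →* ℂˣ, Opn ψ → ψ ^ E = 1 →
    I.u F (ex ψ) = 1)

include hE hyp

/-- the step at an odd prime -/
lemma stepB {K : Subgroup G} (hK : IsOpen (K : Set G)) {χ : K →* ℂˣ} (hχ : Opn χ) {p : ℕ}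
    [Fact p.Prime] (hp : Odd p) (hχp : χ ^ p = 1) (x0 : K) (hx0 : χ x0 ≠ 1) (heven : R.Even χ) :
    ∃ (N : Subgroup G) (hNK : N ≤ K) (ι : Type) (_ : Fintype ι) (θ : ι → (N →* ℂˣ)),
      IsOpen (N : Set G) ∧ (∀ g, g ∈ N ↔ ∃ h : g ∈ K, χ ⟨g, h⟩ = 1) ∧
      (∀ i, Opn (θ i)) ∧ (∀ i n, θ i n = 1 ∨ θ i n = -1) ∧
      ∀ ψ : K →* ℂˣ, Opn ψ → ψ ^ E = 1 →
        I.u K (ex ψ) * ∏ i, I.u N (ex (rs N hNK ψ * θ i)) = 1 := by
  classical
  obtain ⟨ν, r, hν, hν0, hr⟩ := exists_nu χ hχp x0 hx0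
  have hNopen : IsOpen ((kerG χ : Subgroup G) : Set G) := isOpen_kerG hK hχ
  have hmem : ∀ g, g ∈ kerG χ ↔ ∃ h : g ∈ K, ν ⟨g, h⟩ = 0 := by
    intro g
    rw [mem_kerG]
    exact exists_congr fun h => (hν0 _).symm
  obtain ⟨T, hT, hT1⟩ := exists_T (R := R) ν r hν hr (kerG χ) hmem
    (fun c hc h => (hν0 _).2 (heven c hc h))
  obtain ⟨ε, hε, hε2, hεT⟩ := R.wa (kerG χ) hNopen T hT
  let e : K → ℤˣ := fun k => if h : (k : G) ∈ kerG χ then (if ε ⟨k, h⟩ = 1 then 1 else -1) else 1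
  have he1 : ∀ (k : K) (h : (k : G) ∈ kerG χ), e k = if ε ⟨k, h⟩ = 1 then 1 else -1 := by
    intro k h
    simp only [e, dif_pos h]
  have hin : ∀ a : K, ν a = 0 → (a : G) ∈ kerG χ := fun a ha => (hmem _).2 ⟨a.2, ha⟩
  have he : ∀ a b, ν a = 0 → ν b = 0 → e (a * b) = e a * e b := by
    intro a b ha hb
    have hab : ((a * b : K) : G) ∈ kerG χ := (kerG χ).mul_mem (hin a ha) (hin b hb)
    rw [he1 _ hab, he1 _ (hin a ha), he1 _ (hin b hb)]
    have h1 : (⟨((a * b : K) : G), hab⟩ : kerG χ) = ⟨a, hin a ha⟩ * ⟨b, hin b hb⟩ := rfl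
    rw [h1, map_mul]
    rcases hε2 ⟨a, hin a ha⟩ with h2 | h2 <;> rcases hε2 ⟨b, hin b hb⟩ with h3 | h3 <;>
      rw [h2, h3] <;> simp [one_ne.symm]
  let d : Dat K p := ⟨ν, r, e, hν, hr, he⟩
  have hker : kerS d = kerG χ := by
    ext g
    rw [hmem]
    rfl
  -- a small open subgroup
  obtain ⟨U1, hU1, h1⟩ := hχ
  obtain ⟨U2, hU2, h2⟩ := hε
  obtain ⟨V, hVn, hVo, hV⟩ := exists_normal (U := K ⊓ U1 ⊓ U2) ((hK.inter hU1).inter hU2)
  have hVN : ∀ g ∈ V, g ∈ kerG χ := fun g hg => mem_kerG.2 ⟨(hV hg).1.1, h1 ⟨g, _⟩ (hV hg).1.2⟩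
  have hVe : ∀ k : K, (k : G) ∈ V → e k = 1 := by
    intro k hk
    rw [he1 k (hVN _ hk), if_pos]
    exact h2 ⟨k, hVN _ hk⟩ (hV hk).2
  have hVE : ∀ (i : ZMod p) (k : K), (k : G) ∈ V → d.E i k = 1 := by
    intro i k hk
    refine hVe _ ?_
    have h3 := hVn.conj_mem (k : G) hk ((r i : G)⁻¹)
    rw [inv_inv] at h3
    exact h3
  have hVν : ∀ k : K, (k : G) ∈ V → ν k = 0 := by
    intro k hk
    obtain ⟨_, h3⟩ := (hmem _).1 (hVN _ hk)
    exact h3
  letI := d.act hp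
  have hact : ∀ k : K, (k : G) ∈ V → ∀ y : d.X, k • y = y := by
    intro k hk y
    refine (d.fix_iff_zero hp (hVν k hk) y).2 fun i => ?_
    rw [hVE i k hk]
    symm
    refine prod_eq_one fun j _ => ?_
    rw [d.t_eq (hVν k hk), hVE j k hk]
  have hfree : ∀ c ∈ R.C, ∀ h : c ∈ K, ∀ y : d.X, (⟨c, h⟩ : K) • y ≠ y := by
    intro c hc h y hy
    have hc0 : ν ⟨c, h⟩ = 0 := (hν0 _).2 (heven c hc h)
    have h3 := (d.fix_iff_zero hp hc0 y).1 hy
    obtain ⟨i, hi, huniq⟩ := hT1 c hc h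
    have hcc : ∀ j, (r j : G)⁻¹ * c * (r j : G) ∈ R.C := by
      intro j
      have := R.conj c hc (r j : G)⁻¹
      rwa [inv_inv] at this
    have hcN : ∀ j, (r j : G)⁻¹ * c * (r j : G) ∈ kerG χ := by
      intro j
      refine mem_kerG.2 ⟨K.mul_mem (K.mul_mem (K.inv_mem (r j).2) h) (r j).2, ?_⟩
      exact heven _ (hcc j) _
    have hEj : ∀ j, d.E j ⟨c, h⟩ = -1 ↔ (r j : G)⁻¹ * c * (r j : G) ∈ T := by
      intro j
      have h4 : d.E j ⟨c, h⟩ = if ε ⟨(r j : G)⁻¹ * c * (r j : G), hcN j⟩ = 1 then 1 else -1 :=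
        he1 ((r j)⁻¹ * (⟨c, h⟩ : K) * r j) (hcN j)
      rw [h4, ← hεT _ (hcc j) (hcN j)]
      rcases hε2 ⟨(r j : G)⁻¹ * c * (r j : G), hcN j⟩ with h5 | h5
      · rw [h5]
        simp [one_ne]
      · rw [h5]
        simp [one_ne.symm]
    have h6 : d.E i ⟨c, h⟩ = -1 := (hEj i).2 hi
    have hne : i + 1 ≠ i := by
      intro h7
      rw [add_eq_left] at h7
      haveI : Fact (1 < p) := ⟨(Fact.out : p.Prime).one_lt⟩
      exact one_ne_zero h7
    have h7 : d.E (i + 1) ⟨c, h⟩ = -1 := by rw [h3, ← h3 i, h6]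
    exact hne (huniq (i + 1) ((hEj (i + 1)).1 h7))
  have hNo : IsOpen ((kerS d : Subgroup G) : Set G) := by rw [hker]; exact hNopen
  have hellO : ∀ l, Opn (ell d l) := by
    intro l
    refine ⟨V, hVo, fun n hn => ?_⟩
    change Units.map (Int.castRingHom ℂ : ℤ →* ℂ) (d.El l ⟨n, n.2.1⟩) = 1
    have h3 : d.El l ⟨n, n.2.1⟩ = 1 := prod_eq_one fun j _ => hVE j _ hn
    rw [h3, map_one]
  refine ⟨kerS d, kerS_le d, Dat.QQ p, inferInstance, fun q => ell d (Dat.rep q).1, hNo, ?_, ?_, ?_, ?_⟩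
  · intro g
    rw [hker, mem_kerG]
  · intro q
    exact hellO _
  · intro q n
    apply pm_of_sq
    have h3 := ell_sq d (Dat.rep q).1
    rw [← pow_two, ← MonoidHom.pow_apply, h3, MonoidHom.one_apply]
  · intro ψ hψ hψE
    obtain ⟨hmemRR, hu⟩ := u_permf (Y := d.X) I hK hVo hact hψ
    have h3 : I.u K (permf d.X ψ) = 1 := by
      rw [hu]
      refine prod_eq_one fun ω _ => ?_
      refine hyp _ (isOpen_stb hK hVo hact _) ?_ _ (hψ.rs _ _) (by rw [← rs_pow, hψE]; rfl)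
      intro c hc h
      obtain ⟨hcK, h4⟩ := mem_stb.1 h
      exact hfree c hc hcK _ h4
    rw [index_p d hp ψ] at h3
    have hmem2 : ∀ q ∈ (univ : Finset (Dat.QQ p)),
        ind (kerS d) K (ex (ell d (Dat.rep q).1 * rs _ (kerS_le d) ψ)) ∈ RR K := fun q _ =>
      mem_RR_ind hNo (kerS_le d) ((hellO _).mul (hψ.rs _ _))
    rw [I.add K hK _ (mem_RR_ex hK hψ) _ (sum_mem hmem2), I.u_sum _ K hK _ hmem2] at h3
    rw [← h3]
    congr 1
    refine prod_congr rfl fun q _ => ?_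
    rw [I.ind' _ K _ hNo (kerS_le d) ((hellO _).mul (hψ.rs _ _))]
    congr 2
    ext n
    simp only [MonoidHom.mul_apply]
    rw [mul_comm]

/-- odd order -/
theorem lemB (m : ℕ) : Odd m → m ∣ E → ∀ {K : Subgroup G}, IsOpen (K : Set G) → ∀ {φ : K →* ℂˣ},
    Opn φ → φ ^ m = 1 → R.Even φ → ∀ {ψ : K →* ℂˣ}, Opn ψ → ψ ^ E = 1 →
    I.u K (ex (ψ * φ)) = I.u K (ex ψ) := by
  induction m using Nat.strong_induction_on with
  | _ m ih =>
    intro hm hmE K hK φ hφ hφm heven ψ hψ hψE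
    rcases Nat.eq_or_lt_of_le (Nat.one_le_iff_ne_zero.2 (fun h => by rw [h] at hm; exact (by decide : ¬ Odd 0) hm) : 1 ≤ m) with h1 | h1
    · have h2 : φ = 1 := by rw [← pow_one φ, h1, hφm]
      rw [h2]
      congr 2
      ext k
      simp
    · obtain ⟨p, hp, hpm⟩ := Nat.exists_prime_and_dvd (ne_of_gt h1)
      haveI : Fact p.Prime := ⟨hp⟩
      obtain ⟨m', rfl⟩ := hpm
      have hpodd : Odd p := (Nat.odd_mul.1 hm).1
      have hm'odd : Odd m' := (Nat.odd_mul.1 hm).2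
      have hm'pos : 0 < m' := hm'odd.pos
      have hlt : m' < p * m' := by
        have := hp.two_le
        nlinarith
      have hm'E : m' ∣ E := (Dvd.intro_left p rfl).trans hmE
      have hval : ∀ k, φ k ^ (p * m') = 1 := fun k => by
        rw [← MonoidHom.pow_apply, hφm, MonoidHom.one_apply]
      by_cases hx : ∃ x0, (φ ^ m') x0 ≠ 1
      · obtain ⟨x0, hx0⟩ := hx
        have hχp : (φ ^ m') ^ p = 1 := by
          ext k
          rw [MonoidHom.pow_apply, MonoidHom.pow_apply, ← pow_mul, mul_comm, hval]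
          rfl
        have hχeven : R.Even (φ ^ m') := by
          intro c hc h
          rw [MonoidHom.pow_apply, heven c hc h, one_pow]
        obtain ⟨N, hNK, ι, hι, θ, hNo, hNmem, hθ, hθ2, hrel⟩ :=
          stepB I hE hyp hK (hφ.pow m') hpodd hχp x0 hx0 hχeven
        have hψφE : (ψ * φ) ^ E = 1 := by
          obtain ⟨s, hs⟩ := hmE
          ext k
          have h3 : ψ k ^ E = 1 := by rw [← MonoidHom.pow_apply, hψE, MonoidHom.one_apply]
          rw [MonoidHom.pow_apply, MonoidHom.mul_apply, mul_pow, h3, one_mul, hs, pow_mul, hval, one_pow]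
          rfl
        have e1 := hrel ψ hψ hψE
        have e2 := hrel (ψ * φ) (hψ.mul hφ) hψφE
        have e3 : ∀ i, I.u N (ex (rs N hNK (ψ * φ) * θ i)) = I.u N (ex (rs N hNK ψ * θ i)) := by
          intro i
          have h4 : rs N hNK (ψ * φ) * θ i = (rs N hNK ψ * θ i) * rs N hNK φ := by
            ext n
            simp only [MonoidHom.mul_apply, rs_mul]
            rw [mul_right_comm]
          rw [h4]
          refine ih m' hlt hm'odd hm'E hNo (hφ.rs _ _) ?_ (heven.rs _ _) ((hψ.rs _ _).mul (hθ i)) ?_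
          · ext n
            rw [MonoidHom.pow_apply]
            obtain ⟨h5, h6⟩ := (hNmem n).1 n.2
            rw [MonoidHom.pow_apply] at h6
            change ((φ ⟨n, h5⟩ ^ m' : ℂˣ) : ℂ) = 1
            rw [h6, Units.val_one]
          · exact pow_E_mul hE (by rw [← rs_pow, hψE]; rfl) (hθ2 i)
        rw [prod_congr rfl fun i _ => e3 i] at e2
        exact mul_right_cancel (e2.trans e1.symm)
      · push Not at hx
        refine ih m' hlt hm'odd hm'E hK hφ ?_ heven hψ hψE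
        ext k
        rw [hx k]
        rfl

/-- order `2 ^ (b + 1) m` -/
theorem lemC {m : ℕ} (hm : Odd m) (b : ℕ) : 2 ^ (b + 1) * m ∣ E →
    ∀ {K : Subgroup G}, IsOpen (K : Set G) → ∀ {φ : K →* ℂˣ},
    Opn φ → φ ^ (2 ^ (b + 1) * m) = 1 → R.Even φ → ∀ {ψ : K →* ℂˣ}, Opn ψ → ψ ^ E = 1 →
    I.u K (ex (ψ * φ)) ^ 2 ^ b = I.u K (ex ψ) ^ 2 ^ b := by
  induction b with
  | zero =>
    intro hdvd K hK φ hφ hφm heven ψ hψ hψE
    rw [pow_zero, pow_one, pow_one]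
    rw [zero_add, pow_one] at hφm hdvd
    have hval : ∀ k, φ k ^ (2 * m) = 1 := fun k => by
      rw [← MonoidHom.pow_apply, hφm, MonoidHom.one_apply]
    have h1 : ψ * φ = (ψ * φ ^ m) * φ ^ (m + 1) := by
      ext k
      simp only [MonoidHom.mul_apply, MonoidHom.pow_apply]
      rw [mul_assoc, ← pow_add]
      have h2 : m + (m + 1) = 2 * m + 1 := by ring
      rw [h2, pow_succ, hval, one_mul]
    have hη2 : ∀ k, (φ ^ m) k = 1 ∨ (φ ^ m) k = -1 := by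
      intro k
      apply pm_of_sq
      rw [MonoidHom.pow_apply, ← pow_add, ← two_mul, hval]
    have hev : ∀ n, R.Even (φ ^ n) := fun n c hc h => by
      rw [MonoidHom.pow_apply, heven c hc h, one_pow]
    rw [h1]
    have h3 : (φ ^ (m + 1)) ^ m = 1 := by
      obtain ⟨s, hs⟩ := hm
      ext k
      rw [MonoidHom.pow_apply, MonoidHom.pow_apply, ← pow_mul]
      have h4 : (m + 1) * m = 2 * m * (s + 1) := by rw [hs]; ring
      rw [h4, pow_mul, hval, one_pow]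
      rfl
    rw [lemB I hE hyp m hm ((Dvd.intro_left 2 rfl).trans hdvd) hK (hφ.pow (m + 1)) h3 (hev _)
      (hψ.mul (hφ.pow m)) (pow_E_mul hE hψE hη2)]
    exact lemA I hE hyp hK hψ hψE (hφ.pow m) hη2 (hev m)
  | succ b ih =>
    intro hdvd K hK φ hφ hφm heven ψ hψ hψE
    have hdvd' : 2 ^ (b + 1) * m ∣ E := by
      refine (Dvd.intro_left 2 ?_).trans hdvd
      rw [pow_succ 2 (b + 1)]
      ring
    have hval : ∀ k, φ k ^ (2 ^ (b + 1 + 1) * m) = 1 := fun k => by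
      rw [← MonoidHom.pow_apply, hφm, MonoidHom.one_apply]
    have hη2 : ∀ k, (φ ^ (2 ^ (b + 1) * m)) k = 1 ∨ (φ ^ (2 ^ (b + 1) * m)) k = -1 := by
      intro k
      apply pm_of_sq
      rw [MonoidHom.pow_apply, ← pow_add]
      have h2 : 2 ^ (b + 1) * m + 2 ^ (b + 1) * m = 2 ^ (b + 1 + 1) * m := by
        rw [pow_succ 2 (b + 1)]
        ring
      rw [h2, hval]
    have hev : R.Even (φ ^ (2 ^ (b + 1) * m)) := fun c hc h => by
      rw [MonoidHom.pow_apply, heven c hc h, one_pow]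
    have hE' : ∀ {θ : K →* ℂˣ}, θ ^ E = 1 → (θ * φ) ^ E = 1 := by
      intro θ hθ
      obtain ⟨s, hs⟩ := hdvd
      ext k
      have h3 : θ k ^ E = 1 := by rw [← MonoidHom.pow_apply, hθ, MonoidHom.one_apply]
      rw [MonoidHom.pow_apply, MonoidHom.mul_apply, mul_pow, h3, one_mul, hs, pow_mul, hval, one_pow]
      rfl
    by_cases hx : ∃ x0, (φ ^ (2 ^ (b + 1) * m)) x0 = -1
    · obtain ⟨x0, hx0⟩ := hx
      set η := φ ^ (2 ^ (b + 1) * m) with hη
      have hηo : Opn η := hφ.pow _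
      have hNo := isOpen_kerG hK hηo
      have h1 := ih hdvd' hNo (φ := rs _ (kerG_le η) φ) (hφ.rs _ _) (by
        ext n
        obtain ⟨h5, h6⟩ := mem_kerG.1 n.2
        have h7 : φ ⟨n, h5⟩ ^ (2 ^ (b + 1) * m) = 1 := h6
        rw [MonoidHom.pow_apply]
        change ((φ ⟨n, h5⟩ ^ (2 ^ (b + 1) * m) : ℂˣ) : ℂ) = 1
        rw [h7, Units.val_one]) (heven.rs _ _) (ψ := rs _ (kerG_le η) ψ) (hψ.rs _ _)
        (by rw [← rs_pow, hψE]; rfl)
      rw [← rs_mul, u_two I hK (hψ.mul hφ) hηo hη2 x0 hx0, u_two I hK hψ hηo hη2 x0 hx0,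
        lemA I hE hyp hK hψ hψE hηo hη2 hev,
        lemA I hE hyp hK (hψ.mul hφ) (hE' hψE) hηo hη2 hev, ← pow_two, ← pow_two, ← pow_mul,
        ← pow_mul, ← pow_succ'] at h1
      exact h1
    · push Not at hx
      have h1 := ih hdvd' hK hφ (by
        ext k
        rw [(hη2 k).resolve_right (hx k)]
        rfl) heven hψ hψE
      rw [pow_succ, pow_mul, pow_mul, h1]

/-- Totally complex base fields suffice, up to `2`-power torsion. -/
theorem complex_suffices (htriv : ∀ F : Subgroup G, IsOpen (F : Set G) → I.u F (ex (1 : F →* ℂˣ)) = 1)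
    {m : ℕ} (hm : Odd m) (b : ℕ) (hEb : E = 2 ^ (b + 1) * m) {K : Subgroup G}
    (hK : IsOpen (K : Set G)) {ψ : K →* ℂˣ} (hψ : Opn ψ) (hψE : ψ ^ E = 1) :
    I.u K (ex ψ) ^ 2 ^ b = 1 := by
  -- the invariant `u ^ (2 ^ b)`
  let J : Inv G X :=
    { u := fun F f => I.u F f ^ 2 ^ b
      add := fun F hF a ha b' hb' => by rw [I.add F hF a ha b' hb', mul_pow]
      ind' := fun F F' θ hF hFF' hθ => by rw [I.ind' F F' θ hF hFF' hθ] }
  refine odd_suffices (R := R) J hE ?_ hK hψ hψE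
  intro F hF θ hθ hθE hodd
  obtain ⟨δ, hδ, hδ2, hδT⟩ := R.wa F hF R.C (fun c hc n _ => R.conj c hc n)
  have hoddδ : R.Odd δ := fun c hc h => (hδT c hc h).2 hc
  have h1 := lemA0 I hE hyp hF hθ hθE hδ hδ2 hoddδ
  have heven : R.Even (θ * δ) := fun c hc h => by
    rw [MonoidHom.mul_apply, hodd c hc h, hoddδ c hc h, neg_mul_neg, mul_one]
  have hone : (1 : F →* ℂˣ) ^ E = 1 := by
    ext k
    rw [MonoidHom.pow_apply, MonoidHom.one_apply, one_pow]
  have h2 := lemC I hE hyp hm b (by rw [hEb]) hF (hθ.mul hδ) (by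
    rw [← hEb]
    exact pow_E_mul hE hθE hδ2) heven (ψ := 1) Opn.one hone
  rw [htriv F hF, one_pow] at h2
  have h3 : (1 : F →* ℂˣ) * (θ * δ) = θ * δ := by
    ext k
    simp
  rw [h3] at h2
  change I.u F (ex θ) ^ 2 ^ b = 1
  have h4 : (I.u F (ex θ) * I.u F (ex (θ * δ))) ^ 2 ^ b = 1 := by rw [h1, one_pow]
  rw [mul_pow, h2, mul_one] at h4
  exact h4

end Pool.Agent.R386.RP
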