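import Pool.Agent.R386.RP.Main2

/-!
# Real places: the general bound
-/

set_option autoImplicit false
set_option linter.unusedSectionVars false

namespace Pool.Agent.R386.RP

open Finset

/-- signs as complex units -/
def sg : ℤˣ →* ℂˣ := Units.map (Int.castRingHom ℂ : ℤ →* ℂ)

lemma sg_val (z : ℤˣ) : ((sg z : ℂˣ) : ℂ) = ((z : ℤ) : ℂ) := rfl

lemma sg_pm (z : ℤˣ) : sg z = 1 ∨ sg z = -1 := by
  rcases Int.units_eq_one_or z with h | h
  · left
    rw [h, map_one]
  · right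
    rw [h]
    ext
    rw [sg_val]
    simp

lemma sg_neg : sg (-1) = -1 := by
  ext
  rw [sg_val]
  simp

section

variable {G : Type} [Group G] [TopologicalSpace G] {K : Subgroup G} (d : Dat K 2)

lemma T_two (g : K) : d.T g = d.t g 0 * d.t g 1 := Fin.prod_univ_two (fun i => d.t g i)

/-- the transfer character -/
def tau : K →* ℂˣ where
  toFun g := sg (d.T g)
  map_one' := by rw [d.T_one, map_one]
  map_mul' a b := by rw [d.T_mul, map_mul]

lemma tau_apply (g : K) : tau d g = sg (d.T g) := rfl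

lemma T_of_tau {g : K} (h : tau d g = 1) : d.T g = 1 := by
  rcases Int.units_eq_one_or (d.T g) with h1 | h1
  · exact h1
  · exfalso
    rw [tau_apply, h1, sg_neg] at h
    exact one_ne h.symm

lemma t_const {g : K} (h : d.T g = 1) (i j : ZMod 2) : d.t g i = d.t g j := by
  have h1 : d.t g 0 = d.t g 1 := by
    rw [T_two] at h
    have h2 := eq_inv_of_mul_eq_one_left h
    rw [h2, Int.units_inv_eq_self]
  have h3 : ∀ i : ZMod 2, d.t g i = d.t g 0 := by
    intro i
    fin_cases i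
    · rfl
    · exact h1.symm
  rw [h3 i, h3 j]

/-- the character of the kernel of the transfer -/
def muF : kerG (tau d) →* ℂˣ where
  toFun g := sg (d.t ⟨g, (kerG_le _) g.2⟩ 0)
  map_one' := by
    change sg (d.t 1 0) = 1
    rw [d.t_one, map_one]
  map_mul' a b := by
    obtain ⟨hbK, hb⟩ := mem_kerG.1 b.2
    change sg (d.t (⟨a, (kerG_le _) a.2⟩ * ⟨b, (kerG_le _) b.2⟩) 0) = _
    rw [d.t_mul, map_mul]
    congr 2
    exact t_const d (T_of_tau d hb) _ _

lemma muF_pm (g : kerG (tau d)) : muF d g = 1 ∨ muF d g = -1 := sg_pm _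

theorem d4 (ψ : K →* ℂˣ) (y0 : K) (hν : d.ν y0 = 0) (hT : d.T y0 = -1) :
    ind (kerS d) K (ex (ell d {0} * rs _ (kerS_le d) ψ)) =
      ind (kerG (tau d)) K (ex (muF d * rs _ (kerG_le _) ψ)) := by
  classical
  have hr : Function.Bijective (fun i => (d.r i : K ⧸ (kerS d).subgroupOf K)) := by
    constructor
    · intro a b hab
      have h1 := QuotientGroup.eq.1 hab
      have h2 : d.ν ((d.r a)⁻¹ * d.r b) = 0 := (Subgroup.mem_subgroupOf.1 h1).2
      rw [d.hν, d.ν_inv, d.hr, d.hr] at h2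
      exact neg_add_eq_zero.1 h2
    · intro x
      induction x using QuotientGroup.induction_on with
      | H z =>
        refine ⟨d.ν z, ?_⟩
        rw [QuotientGroup.eq]
        refine Subgroup.mem_subgroupOf.2 ⟨((d.r (d.ν z))⁻¹ * z).2, ?_⟩
        change d.ν ((d.r (d.ν z))⁻¹ * z) = 0
        rw [d.hν, d.ν_inv, d.hr, neg_add_cancel]
  let q : Bool → K := fun b => if b then y0 else 1
  have hqν : ∀ b, d.ν (q b) = 0 := by
    intro b
    cases b
    · exact d.ν_one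
    · exact hν
  have htau : ∀ k : K, tau d k = 1 ∨ tau d k = -1 := fun k => sg_pm _
  have hy0 : tau d y0 = -1 := by rw [tau_apply, hT, sg_neg]
  have hq : Function.Bijective (fun i => (q i : K ⧸ (kerG (tau d)).subgroupOf K)) := by
    constructor
    · intro a b hab
      by_contra hne'
      have h1 := QuotientGroup.eq.1 hab
      have h2 : tau d ((q a)⁻¹ * q b) = 1 := (mem_kerG.1 (Subgroup.mem_subgroupOf.1 h1)).2
      rw [map_mul, map_inv, inv_mul_eq_one] at h2
      rcases a with _ | _ <;> rcases b with _ | _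
      · exact hne' rfl
      · simp only [q, if_true] at h2
        simp [hy0] at h2
      · simp only [q, if_true] at h2
        simp [hy0] at h2
      · exact hne' rfl
    · intro x
      induction x using QuotientGroup.induction_on with
      | H z =>
        rcases htau z with hz | hz
        · refine ⟨false, ?_⟩
          rw [QuotientGroup.eq]
          refine Subgroup.mem_subgroupOf.2 (mem_kerG.2 ⟨((q false)⁻¹ * z).2, ?_⟩)
          change tau d ((q false)⁻¹ * z) = 1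
          simp [q, hz]
        · refine ⟨true, ?_⟩
          rw [QuotientGroup.eq]
          refine Subgroup.mem_subgroupOf.2 (mem_kerG.2 ⟨((q true)⁻¹ * z).2, ?_⟩)
          change tau d ((q true)⁻¹ * z) = 1
          simp [q, hz, hy0]
  funext g
  by_cases hg : g ∈ K
  · rw [ind_eq d.r hr _ (fun h hh g => ex_conj _ hh g), ind_eq q hq _ (fun h hh g => ex_conj _ hh g)]
    -- the left-hand side
    have hνc : ∀ (k : K) (hk : (k : G)⁻¹ * g * (k : G) ∈ K),
        d.ν ⟨(k : G)⁻¹ * g * (k : G), hk⟩ = d.ν ⟨g, hg⟩ := by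
      intro k hk
      have h3 : (⟨(k : G)⁻¹ * g * (k : G), hk⟩ : K) = k⁻¹ * (⟨g, hg⟩ : K) * k := rfl
      rw [h3, d.hν, d.hν, d.ν_inv]
      ring
    have hψc : ∀ (θ : K →* ℂˣ) (k : K) (hk : (k : G)⁻¹ * g * (k : G) ∈ K),
        θ ⟨(k : G)⁻¹ * g * (k : G), hk⟩ = θ ⟨g, hg⟩ := by
      intro θ k hk
      have h3 : (⟨(k : G)⁻¹ * g * (k : G), hk⟩ : K) = k⁻¹ * (⟨g, hg⟩ : K) * k := rfl
      rw [h3, map_mul, map_mul, map_inv, mul_comm (θ k)⁻¹, inv_mul_cancel_right]
    have hL : ∀ i, ex (ell d {0} * rs _ (kerS_le d) ψ) ((d.r i : G)⁻¹ * g * (d.r i : G)) =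
        if d.ν ⟨g, hg⟩ = 0 then ((d.E i ⟨g, hg⟩ : ℤ) : ℂ) * ψ ⟨g, hg⟩ else 0 := by
      intro i
      have hk : (d.r i : G)⁻¹ * g * (d.r i : G) ∈ K := K.mul_mem (K.mul_mem (K.inv_mem (d.r i).2) hg) (d.r i).2
      by_cases h0 : d.ν ⟨g, hg⟩ = 0
      · rw [if_pos h0]
        have h5 : (d.r i : G)⁻¹ * g * (d.r i : G) ∈ kerS d := ⟨hk, by rw [hνc, h0]⟩
        rw [ex_of_mem _ h5, MonoidHom.mul_apply, rs_apply, hψc ψ, Units.val_mul]
        congr 1
        change ((sg (d.El {0} ((d.r i)⁻¹ * ⟨g, hg⟩ * d.r i)) : ℂˣ) : ℂ) = _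
        rw [sg_val, d.El_conj _ _ h0]
        congr 2
        have h6 : Dat.rot i ({0} : Finset (ZMod 2)) = {i} := by
          ext x
          rw [Dat.mem_rot, mem_singleton, mem_singleton, sub_eq_zero]
        rw [h6, prod_singleton]
      · rw [if_neg h0]
        refine ex_of_not_mem _ fun h5 => h0 ?_
        rw [← hνc (d.r i) h5.1]
        exact h5.2
    rw [sum_congr rfl fun i _ => hL i]
    -- the right-hand side
    have hR : ∀ b, ex (muF d * rs _ (kerG_le _) ψ) ((q b : G)⁻¹ * g * (q b : G)) =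
        if tau d ⟨g, hg⟩ = 1 then ((d.t ((q b)⁻¹ * ⟨g, hg⟩ * q b) 0 : ℤ) : ℂ) * ψ ⟨g, hg⟩ else 0 := by
      intro b
      have hk : (q b : G)⁻¹ * g * (q b : G) ∈ K := K.mul_mem (K.mul_mem (K.inv_mem (q b).2) hg) (q b).2
      by_cases h0 : tau d ⟨g, hg⟩ = 1
      · rw [if_pos h0]
        have h5 : (q b : G)⁻¹ * g * (q b : G) ∈ kerG (tau d) := mem_kerG.2 ⟨hk, by rw [hψc, h0]⟩
        rw [ex_of_mem _ h5, MonoidHom.mul_apply, rs_apply, hψc ψ, Units.val_mul]
        rfl
      · rw [if_neg h0]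
        refine ex_of_not_mem _ fun h5 => h0 ?_
        obtain ⟨h6, h7⟩ := mem_kerG.1 h5
        rw [← hψc (tau d) (q b) h6]
        exact h7
    rw [sum_congr rfl fun b _ => hR b, Fintype.sum_bool]
    have hsumL : ∀ f : ZMod 2 → ℂ, ∑ i, f i = f 0 + f 1 := fun f => Fin.sum_univ_two f
    rw [hsumL]
    -- values of `t` on conjugates
    have ht : ∀ b, d.t ((q b)⁻¹ * ⟨g, hg⟩ * q b) 0 =
        d.t (q b) 0 * d.t ⟨g, hg⟩ 0 * d.t (q b) (0 - d.ν ⟨g, hg⟩) := by
      intro b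
      rw [d.t_mul, d.t_mul, d.hν, d.ν_inv, hqν b, neg_zero, sub_zero, zero_add]
      congr 2
      have h1 : d.t ((q b)⁻¹ * q b) 0 = 1 := by rw [inv_mul_cancel, d.t_one]
      rw [d.t_mul, d.ν_inv, hqν b, neg_zero, sub_zero] at h1
      rw [eq_inv_of_mul_eq_one_left h1, Int.units_inv_eq_self]
    have ht0 : d.t ((q false)⁻¹ * ⟨g, hg⟩ * q false) 0 = d.t ⟨g, hg⟩ 0 := by
      change d.t (1⁻¹ * ⟨g, hg⟩ * 1) 0 = _
      rw [inv_one, one_mul, mul_one]
    have hy : d.t y0 0 * d.t y0 1 = -1 := by rw [← T_two, hT]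
    by_cases h0 : d.ν ⟨g, hg⟩ = 0
    · rw [if_pos h0, if_pos h0, ← d.t_eq h0, ← d.t_eq h0]
      have ht1 : d.t ((q true)⁻¹ * ⟨g, hg⟩ * q true) 0 = d.t ⟨g, hg⟩ 0 := by
        rw [ht, h0, sub_zero, mul_right_comm, Int.units_mul_self, one_mul]
      rw [ht0, ht1]
      by_cases h1 : tau d ⟨g, hg⟩ = 1
      · rw [if_pos h1, t_const d (T_of_tau d h1) 1 0]
      · rw [if_neg h1]
        have h2 : d.t ⟨g, hg⟩ 0 * d.t ⟨g, hg⟩ 1 = -1 := by
          rw [← T_two]
          refine (Int.units_eq_one_or _).resolve_left fun h3 => h1 ?_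
          rw [tau_apply, h3, map_one]
        have h3 : d.t ⟨g, hg⟩ 1 = - d.t ⟨g, hg⟩ 0 := by
          have h4 : d.t ⟨g, hg⟩ 0 * (d.t ⟨g, hg⟩ 0 * d.t ⟨g, hg⟩ 1) = d.t ⟨g, hg⟩ 0 * -1 := by rw [h2]
          rw [← mul_assoc, Int.units_mul_self, one_mul, mul_neg, mul_one] at h4
          exact h4
        rw [h3]
        push_cast
        ring
    · rw [if_neg h0, if_neg h0, add_zero]
      have hν1 : 0 - d.ν ⟨g, hg⟩ = 1 := by
        have h2 : ∀ z : ZMod 2, z ≠ 0 → 0 - z = 1 := by decide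
        exact h2 _ h0
      have ht1 : d.t ((q true)⁻¹ * ⟨g, hg⟩ * q true) 0 = - d.t ⟨g, hg⟩ 0 := by
        rw [ht, hν1]
        change d.t y0 0 * d.t ⟨g, hg⟩ 0 * d.t y0 1 = _
        rw [mul_right_comm, hy, neg_one_mul]
      rw [ht0, ht1]
      by_cases h1 : tau d ⟨g, hg⟩ = 1
      · rw [if_pos h1, if_pos h1]
        push_cast
        ring
      · rw [if_neg h1, if_neg h1, add_zero]
  · rw [ind_of_not_mem (kerS_le d) _ hg, ind_of_not_mem (kerG_le _) _ hg]

end

end Pool.Agent.R386.RP
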