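import Mathlib

/-!
# A finite set with an action of an extension of `ℤ / p` (imprimitive action, `C₂ ≀ C_p`)
-/

set_option autoImplicit false
set_option linter.unusedSectionVars false

namespace Pool.Agent.R386.RP

open Finset

/-- the data: a surjection `ν : Γ → ℤ/p`, a section and a sign character of the kernel -/
structure Dat (Γ : Type) [Group Γ] (p : ℕ) where
  ν : Γ → ZMod p
  r : ZMod p → Γ
  e : Γ → ℤˣ
  hν : ∀ a b, ν (a * b) = ν a + ν b
  hr : ∀ i, ν (r i) = i
  he : ∀ a b, ν a = 0 → ν b = 0 → e (a * b) = e a * e b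

namespace Dat

variable {Γ : Type} [Group Γ] {p : ℕ} (d : Dat Γ p)

lemma ν_one : d.ν 1 = 0 := by
  have h := d.hν 1 1
  rw [one_mul] at h
  simpa using h

lemma ν_inv (a : Γ) : d.ν a⁻¹ = - d.ν a := by
  have h := d.hν a⁻¹ a
  rw [inv_mul_cancel, d.ν_one] at h
  exact (neg_eq_of_add_eq_zero_left h.symm).symm

lemma e_one : d.e 1 = 1 := by
  have h := d.he 1 1 d.ν_one d.ν_one
  rw [one_mul] at h
  exact (mul_eq_left.1 h.symm)

lemma e_inv {a : Γ} (ha : d.ν a = 0) : d.e a⁻¹ = (d.e a)⁻¹ := by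
  have h := d.he a⁻¹ a (by rw [d.ν_inv, ha, neg_zero]) ha
  rw [inv_mul_cancel, d.e_one] at h
  exact eq_inv_of_mul_eq_one_left h.symm

lemma e_conj {x y n : Γ} (hxy : d.ν x = d.ν y) (hn : d.ν n = 0) :
    d.e (x⁻¹ * n * x) = d.e (y⁻¹ * n * y) := by
  have hm : d.ν (x⁻¹ * y) = 0 := by rw [d.hν, d.ν_inv, hxy, neg_add_cancel]
  have ha : d.ν (x⁻¹ * n * x) = 0 := by rw [d.hν, d.hν, d.ν_inv, hn, add_zero, neg_add_cancel]
  have h1 : y⁻¹ * n * y = (x⁻¹ * y)⁻¹ * (x⁻¹ * n * x) * (x⁻¹ * y) := by group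
  have hm' : d.ν (x⁻¹ * y)⁻¹ = 0 := by rw [d.ν_inv, hm, neg_zero]
  rw [h1, d.he _ _ (by rw [d.hν, hm', ha, add_zero]) hm, d.he _ _ hm' ha, d.e_inv hm]
  rw [mul_comm (d.e (x⁻¹ * y))⁻¹, inv_mul_cancel_right]

/-- the translation part -/
def t (g : Γ) (i : ZMod p) : ℤˣ := d.e ((d.r i)⁻¹ * g * d.r (i - d.ν g))

lemma ν_t (g : Γ) (i : ZMod p) : d.ν ((d.r i)⁻¹ * g * d.r (i - d.ν g)) = 0 := by
  rw [d.hν, d.hν, d.ν_inv, d.hr, d.hr]
  ring

lemma t_one (i : ZMod p) : d.t 1 i = 1 := by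
  unfold t
  rw [d.ν_one, sub_zero, mul_one, inv_mul_cancel, d.e_one]

lemma t_mul (g h : Γ) (i : ZMod p) : d.t (g * h) i = d.t g i * d.t h (i - d.ν g) := by
  unfold t
  rw [← d.he _ _ (d.ν_t g i) (d.ν_t h _)]
  congr 1
  rw [d.hν, sub_add_eq_sub_sub]
  group

variable [Fact p.Prime]

/-- the product of the translation part (transfer) -/
def T (g : Γ) : ℤˣ := ∏ i, d.t g i

lemma T_one : d.T 1 = 1 := prod_eq_one fun i _ => d.t_one i

lemma T_mul (g h : Γ) : d.T (g * h) = d.T g * d.T h := by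
  unfold T
  rw [prod_congr rfl fun i _ => d.t_mul g h i, prod_mul_distrib]
  congr 1
  exact Equiv.prod_comp (Equiv.subRight (d.ν g)) (fun i => d.t h i)

/-- the finite set: functions `ℤ/p → {± 1}` with product one -/
def XX (p : ℕ) [Fact p.Prime] : Subgroup (ZMod p → ℤˣ) where
  carrier := {v | ∏ i, v i = 1}
  mul_mem' := by
    intro a b ha hb
    simp only [Set.mem_setOf_eq, Pi.mul_apply, prod_mul_distrib] at *
    rw [ha, hb, one_mul]
  one_mem' := by simp
  inv_mem' := by
    intro a ha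
    simp only [Set.mem_setOf_eq, Pi.inv_apply, prod_inv_distrib] at *
    rw [ha, inv_one]

/-- the set with its action -/
def X (_ : Dat Γ p) : Type := XX p

noncomputable instance : Fintype d.X := by
  classical
  exact Fintype.ofInjective (fun v : d.X => (v.1 : ZMod p → ℤˣ)) Subtype.val_injective

lemma mem_XX {v : ZMod p → ℤˣ} : v ∈ XX p ↔ ∏ i, v i = 1 := Iff.rfl

lemma two_pow (hp : Odd p) (z : ℤˣ) : z ^ p = z := by
  obtain ⟨k, rfl⟩ := hp
  rw [pow_add, pow_mul, pow_one, Int.units_sq, one_pow, one_mul]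

/-- the action -/
noncomputable def smul' (g : Γ) (v : ZMod p → ℤˣ) : ZMod p → ℤˣ :=
  fun i => v (i - d.ν g) * d.t g i * d.T g

lemma smul_mem (hp : Odd p) (g : Γ) {v : ZMod p → ℤˣ} (hv : v ∈ XX p) : d.smul' g v ∈ XX p := by
  rw [mem_XX] at *
  unfold smul'
  rw [prod_mul_distrib, prod_mul_distrib, prod_const, card_univ, ZMod.card, two_pow hp]
  have h1 : ∏ i, v (i - d.ν g) = 1 := by
    rw [← hv]
    exact Equiv.prod_comp (Equiv.subRight (d.ν g)) (fun i => v i)
  rw [h1, one_mul]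
  change d.T g * d.T g = 1
  exact Int.units_mul_self _

/-- the action of `Γ` on the finite set -/
noncomputable def act (hp : Odd p) : MulAction Γ d.X where
  smul g v := ⟨d.smul' g v.1, d.smul_mem hp g v.2⟩
  one_smul v := by
    refine Subtype.ext (funext fun i => ?_)
    change v.1 (i - d.ν 1) * d.t 1 i * d.T 1 = v.1 i
    rw [d.ν_one, sub_zero, d.t_one, d.T_one, mul_one, mul_one]
  mul_smul g h v := by
    refine Subtype.ext (funext fun i => ?_)
    change v.1 (i - d.ν (g * h)) * d.t (g * h) i * d.T (g * h) =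
      (v.1 (i - d.ν g - d.ν h) * d.t h (i - d.ν g) * d.T h) * d.t g i * d.T g
    rw [d.hν, sub_add_eq_sub_sub, d.t_mul, d.T_mul]
    ac_rfl

lemma fix_iff (hp : Odd p) (g : Γ) (v : d.X) :
    (letI := d.act hp; g • v = v) ↔ ∀ i, v.1 (i - d.ν g) * d.t g i * d.T g = v.1 i := by
  letI := d.act hp
  constructor
  · intro h i
    exact congrFun (congrArg Subtype.val h) i
  · intro h
    exact Subtype.ext (funext h)

/-- conjugates of `e` -/
def E (i : ZMod p) (n : Γ) : ℤˣ := d.e ((d.r i)⁻¹ * n * d.r i)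

lemma t_eq {g : Γ} (hg : d.ν g = 0) (i : ZMod p) : d.t g i = d.E i g := by
  unfold t E
  rw [hg, sub_zero]

lemma fix_iff_zero (hp : Odd p) {g : Γ} (hg : d.ν g = 0) (v : d.X) :
    (letI := d.act hp; g • v = v) ↔ ∀ i, d.E i g = d.T g := by
  rw [d.fix_iff hp]
  refine forall_congr' fun i => ?_
  rw [hg, sub_zero, d.t_eq hg, mul_assoc, mul_eq_left]
  constructor
  · intro h
    have h2 : d.E i g = (d.T g)⁻¹ := eq_inv_of_mul_eq_one_left h
    rw [h2, Int.units_inv_eq_self]
  · intro h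
    rw [h]
    exact Int.units_mul_self _

lemma const_of_shift {k : ZMod p} (hk : k ≠ 0) {v : ZMod p → ℤˣ} (h : ∀ i, v (i - k) = v i)
    (i : ZMod p) : v i = v 0 := by
  have h1 : ∀ n : ℕ, v (i - n * k) = v i := by
    intro n
    induction n with
    | zero => simp
    | succ n ih =>
      rw [← ih, ← h (i - n * k)]
      congr 1
      push_cast
      ring
  have h2 := h1 (i * k⁻¹).val
  rw [ZMod.natCast_val, ZMod.cast_id', id, mul_assoc, inv_mul_cancel₀ hk, mul_one, sub_self] at h2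
  exact h2.symm

lemma fix_unique (hp : Odd p) {g : Γ} (hg : d.ν g ≠ 0) :
    ∃! v : d.X, (letI := d.act hp; g • v = v) := by
  classical
  let D : XX p → XX p := fun v => ⟨fun i => v.1 i * v.1 (i - d.ν g), by
    rw [mem_XX, prod_mul_distrib]
    have h1 : ∏ i, v.1 (i - d.ν g) = ∏ i, v.1 i :=
      Equiv.prod_comp (Equiv.subRight (d.ν g)) (fun i => v.1 i)
    rw [h1, mem_XX.1 v.2, one_mul]⟩
  have hinj : Function.Injective D := by
    intro v w hvw
    have h1 : ∀ i, (v.1 (i - d.ν g) * w.1 (i - d.ν g)) = v.1 i * w.1 i := by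
      intro i
      have h2 : v.1 i * v.1 (i - d.ν g) = w.1 i * w.1 (i - d.ν g) :=
        congrFun (congrArg Subtype.val hvw) i
      have h3 : v.1 i * v.1 (i - d.ν g) * (v.1 i * w.1 (i - d.ν g)) =
          w.1 i * w.1 (i - d.ν g) * (v.1 i * w.1 (i - d.ν g)) := by rw [h2]
      have h4 : v.1 i * v.1 (i - d.ν g) * (v.1 i * w.1 (i - d.ν g)) =
          (v.1 i * v.1 i) * (v.1 (i - d.ν g) * w.1 (i - d.ν g)) := by ac_rfl
      have h5 : w.1 i * w.1 (i - d.ν g) * (v.1 i * w.1 (i - d.ν g)) =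
          (w.1 (i - d.ν g) * w.1 (i - d.ν g)) * (v.1 i * w.1 i) := by ac_rfl
      rw [h4, h5, Int.units_mul_self, Int.units_mul_self, one_mul, one_mul] at h3
      exact h3
    have h2 := const_of_shift (v := fun i => v.1 i * w.1 i) hg h1
    have h3 : (v.1 0 * w.1 0) = 1 := by
      have h4 : ∏ i, (v.1 i * w.1 i) = 1 := by
        rw [prod_mul_distrib, mem_XX.1 v.2, mem_XX.1 w.2, one_mul]
      rw [prod_congr rfl fun i _ => h2 i, prod_const, card_univ, ZMod.card, two_pow hp] at h4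
      exact h4
    refine Subtype.ext (funext fun i => ?_)
    have h4 := h2 i
    rw [h3] at h4
    have h5 := eq_inv_of_mul_eq_one_left h4
    rw [h5, Int.units_inv_eq_self]
  have hbij : Function.Bijective D := Finite.injective_iff_bijective.1 hinj
  have htau : (fun i => d.t g i * d.T g) ∈ XX p := by
    rw [mem_XX, prod_mul_distrib, prod_const, card_univ, ZMod.card, two_pow hp]
    exact Int.units_mul_self _
  obtain ⟨v, hv, huniq⟩ := hbij.existsUnique ⟨_, htau⟩
  have key : ∀ w : d.X, (letI := d.act hp; g • w = w) ↔ D w = ⟨_, htau⟩ := by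
    intro w
    rw [d.fix_iff hp]
    constructor
    · intro h
      refine Subtype.ext (funext fun i => ?_)
      change w.1 i * w.1 (i - d.ν g) = d.t g i * d.T g
      rw [← h i]
      have h5 : w.1 (i - d.ν g) * d.t g i * d.T g * w.1 (i - d.ν g) =
        (w.1 (i - d.ν g) * w.1 (i - d.ν g)) * (d.t g i * d.T g) := by ac_rfl
      rw [h5, Int.units_mul_self, one_mul]
    · intro h i
      have h2 : w.1 i * w.1 (i - d.ν g) = d.t g i * d.T g := congrFun (congrArg Subtype.val h) i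
      rw [mul_assoc, ← h2]
      have h5 : w.1 (i - d.ν g) * (w.1 i * w.1 (i - d.ν g)) =
        (w.1 (i - d.ν g) * w.1 (i - d.ν g)) * w.1 i := by ac_rfl
      rw [h5, Int.units_mul_self, one_mul]
  exact ⟨v, (key v).2 hv, fun w hw => huniq w ((key w).1 hw)⟩

lemma card_X (hp : Odd p) : 2 * Fintype.card d.X = 2 ^ p := by
  classical
  let f : (ZMod p → ℤˣ) ≃ d.X × ℤˣ :=
    { toFun := fun v => (⟨fun i => v i * ∏ j, v j, by
          rw [mem_XX, prod_mul_distrib, prod_const, card_univ, ZMod.card, two_pow hp]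
          exact Int.units_mul_self _⟩, ∏ j, v j)
      invFun := fun x => fun i => x.1.1 i * x.2
      left_inv := by
        intro v
        funext i
        change v i * (∏ j, v j) * (∏ j, v j) = v i
        rw [mul_assoc, Int.units_mul_self, mul_one]
      right_inv := by
        rintro ⟨x, z⟩
        have h1 : ∏ j, (x.1 j * z) = z := by
          rw [prod_mul_distrib, prod_const, card_univ, ZMod.card, two_pow hp, mem_XX.1 x.2, one_mul]
        refine Prod.ext ?_ h1
        refine Subtype.ext (funext fun i => ?_)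
        change x.1 i * z * ∏ j, (x.1 j * z) = x.1 i
        rw [h1, mul_assoc, Int.units_mul_self, mul_one] }
  have h := Fintype.card_congr f
  rw [Fintype.card_prod, Fintype.card_fun, ZMod.card] at h
  have h2 : Fintype.card ℤˣ = 2 := rfl
  rw [h2] at h
  rw [mul_comm]
  exact h.symm

end Dat

end Pool.Agent.R386.RP
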